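import Pool.Agent.Helper46.E.Count

/-!
Sums over the subspaces between two given subspaces of a finite vector space over the field with
two elements.
-/

set_option autoImplicit false

namespace Pool.Agent.H594R3.Cnt

open Module Submodule Pool.Agent.Helper46.E

/-- number of `k`-dimensional subspaces of an `n`-dimensional space over the field with two
elements -/
def gb (n k : ℕ) : ℕ :=
  (∏ i ∈ Finset.range k, (2 ^ n - 2 ^ i)) / (∏ i ∈ Finset.range k, (2 ^ k - 2 ^ i))

abbrev F2 := ZMod 2

lemma nd_eq {V : Type} [AddCommGroup V] [Module F2 V] [Finite V] (k : ℕ)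
    (hk : k ≤ finrank F2 V) : nd F2 V k = gb (finrank F2 V) k := by
  have h := nd_mul (F := F2) (V := V) k hk
  rw [ZMod.card] at h
  unfold gb
  rw [← h]
  symm
  apply Nat.mul_div_cancel
  apply Finset.prod_pos
  intro i hi
  have : 2 ^ i < 2 ^ k := Nat.pow_lt_pow_right (by norm_num) (Finset.mem_range.1 hi)
  omega

noncomputable local instance instFt {V : Type} [AddCommGroup V] [Module F2 V] [Finite V] :
    Fintype (Submodule F2 V) := Fintype.ofFinite _

lemma finrank_comap_mkQ {V : Type} [AddCommGroup V] [Module F2 V] [Finite V] (S : Submodule F2 V)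
    (U : Submodule F2 (V ⧸ S)) : finrank F2 (U.comap S.mkQ) = finrank F2 U + finrank F2 S := by
  have : FiniteDimensional F2 V := Module.Finite.of_finite
  have h := LinearMap.finrank_range_add_finrank_ker (S.mkQ.domRestrict (U.comap S.mkQ))
  have h1 : LinearMap.range (S.mkQ.domRestrict (U.comap S.mkQ)) = U := by
    rw [LinearMap.range_domRestrict, Submodule.map_comap_eq_of_surjective (mkQ_surjective S)]
  have h2 : finrank F2 (LinearMap.ker (S.mkQ.domRestrict (U.comap S.mkQ))) = finrank F2 S := by
    have h3 : LinearMap.ker (S.mkQ.domRestrict (U.comap S.mkQ)) =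
        S.comap (U.comap S.mkQ).subtype := by
      ext x
      simp [LinearMap.mem_ker, LinearMap.domRestrict_apply]
    rw [h3]
    apply (Submodule.comapSubtypeEquivOfLe ?_).finrank_eq
    intro x hx
    rw [Submodule.mem_comap]
    have : S.mkQ x = 0 := by simpa using hx
    rw [this]
    exact zero_mem _
  rw [h1, h2] at h
  exact h.symm

/-- sum of a function of the dimension over all subspaces -/
lemma sum_all {V : Type} [AddCommGroup V] [Module F2 V] [Finite V] {A : Type*} [AddCommMonoid A]
    (g : ℕ → A) : ∑ U : Submodule F2 V, g (finrank F2 U) =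
      ∑ k ∈ Finset.range (finrank F2 V + 1), gb (finrank F2 V) k • g k := by
  classical
  have : FiniteDimensional F2 V := Module.Finite.of_finite
  rw [← Finset.sum_fiberwise_of_maps_to (s := (Finset.univ : Finset (Submodule F2 V)))
    (t := Finset.range (finrank F2 V + 1)) (g := fun U => finrank F2 U)
    (fun U _ => Finset.mem_range.2 (Nat.lt_succ_of_le (Submodule.finrank_le U)))]
  refine Finset.sum_congr rfl fun k hk => ?_
  rw [Finset.sum_congr rfl (fun U hU => by rw [(Finset.mem_filter.1 hU).2]), Finset.sum_const]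
  congr 1
  rw [← nd_eq k (Nat.lt_succ_iff.1 (Finset.mem_range.1 hk)), nd, Nat.card_eq_fintype_card,
    Fintype.card_subtype]

theorem sum_between {V : Type} [AddCommGroup V] [Module F2 V] [Finite V] {A : Type*}
    [AddCommMonoid A] (S Y : Submodule F2 V) (hSY : S ≤ Y) (g : ℕ → A) (s : Finset (Submodule F2 V))
    (hs : ∀ Z, Z ∈ s ↔ (S ≤ Z ∧ Z ≤ Y)) :
    ∑ Z ∈ s, g (finrank F2 Z) = ∑ k ∈ Finset.range (finrank F2 Y - finrank F2 S + 1),
      gb (finrank F2 Y - finrank F2 S) k • g (k + finrank F2 S) := by
  classical
  have : FiniteDimensional F2 V := Module.Finite.of_finite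
  set S' : Submodule F2 Y := S.comap Y.subtype with hS'
  have hfS : finrank F2 S' = finrank F2 S := (Submodule.comapSubtypeEquivOfLe hSY).finrank_eq
  have hfinq : Finite (Y ⧸ S') := Finite.of_surjective _ (mkQ_surjective S')
  have hq : finrank F2 (Y ⧸ S') = finrank F2 Y - finrank F2 S := by
    have := Submodule.finrank_quotient_add_finrank S'
    omega
  have h1 := sum_all (V := Y ⧸ S') (fun k => g (k + finrank F2 S))
  rw [hq] at h1
  rw [← h1]
  symm
  refine Finset.sum_bij (fun (U : Submodule F2 (Y ⧸ S')) _ => (U.comap S'.mkQ).map Y.subtype)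
    ?_ ?_ ?_ ?_
  · intro U _
    rw [hs]
    constructor
    · intro x hx
      rw [Submodule.mem_map]
      refine ⟨⟨x, hSY hx⟩, ?_, rfl⟩
      rw [Submodule.mem_comap]
      have : S'.mkQ ⟨x, hSY hx⟩ = 0 := by
        rw [Submodule.mkQ_apply, Submodule.Quotient.mk_eq_zero, hS', Submodule.mem_comap]
        exact hx
      rw [this]
      exact zero_mem _
    · exact Submodule.map_subtype_le _ _
  · intro U1 _ U2 _ h
    exact Submodule.comap_injective_of_surjective (mkQ_surjective S')
      (Submodule.map_injective_of_injective Y.injective_subtype h)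
  · intro Z hZ
    rw [hs] at hZ
    refine ⟨(Z.comap Y.subtype).map S'.mkQ, Finset.mem_univ _, ?_⟩
    have h2 : ((Z.comap Y.subtype).map S'.mkQ).comap S'.mkQ = Z.comap Y.subtype := by
      rw [Submodule.comap_map_mkQ, sup_eq_right]
      exact Submodule.comap_mono hZ.1
    rw [h2, Submodule.map_comap_subtype, inf_eq_right]
    exact hZ.2
  · intro U _
    rw [Submodule.finrank_map_subtype_eq, finrank_comap_mkQ, hfS]

end Pool.Agent.H594R3.Cnt
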