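import Pool.Agent.H594R3.TM

/-!
The binary projective space together with three further points: classification of the flats of the
truncated vector matroid.
-/

set_option autoImplicit false

namespace Pool.Agent.H594R3.Ex

open Module Submodule Pool.Agent.H594R3.TM

abbrev F2 := ZMod 2

variable {B : Type*} [AddCommGroup B] [Module F2 B]

/-- flags telling which of the three further points are present -/
abbrev Fl := Bool × Bool × Bool

lemma two_cases (z : F2) : z = 0 ∨ z = 1 := by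
  revert z; decide

lemma c_eq1 : ∀ c : F2, (0 : F2) = c + 1 + 0 → c = 1 := by decide

lemma c_eq2 : ∀ c : F2, (1 : F2) = c + 1 + 1 → c = 1 := by decide

lemma c_eq3 : ∀ c : F2, (1 : F2) = c + 0 + 0 → c = 1 := by decide

lemma c_eq4 : ∀ c : F2, (0 : F2) = c + 0 + 1 → c = 1 := by decide

lemma self_add (x : B) : x + x = 0 := by
  have h : (2 : F2) = 0 := by decide
  rw [← two_smul F2 x, h, zero_smul]

lemma add_self_cancel (x y : B) : x + y + y = x := by
  rw [add_assoc, self_add, add_zero]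

/-- the subspace belonging to `Y` and the flags `t` -/
def D (a : B) (Y : Submodule F2 B) (t : Fl) : Submodule F2 (B × F2 × F2) where
  carrier := {x | ∃ c1 c2 c3 : F2, (c1 ≠ 0 → t.1 = true) ∧ (c2 ≠ 0 → t.2.1 = true) ∧
    (c3 ≠ 0 → t.2.2 = true) ∧ x.1 + c2 • a ∈ Y ∧ x.2.1 = c1 + c2 + c3 ∧ x.2.2 = c3}
  zero_mem' := ⟨0, 0, 0, by simp, by simp, by simp, by simp, by simp, by simp⟩
  add_mem' := by
    rintro x y ⟨c1, c2, c3, h1, h2, h3, h4, h5, h6⟩ ⟨d1, d2, d3, k1, k2, k3, k4, k5, k6⟩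
    have hne : ∀ p q : F2, p + q ≠ 0 → p ≠ 0 ∨ q ≠ 0 := by decide
    refine ⟨c1 + d1, c2 + d2, c3 + d3, fun h => (hne _ _ h).elim h1 k1,
      fun h => (hne _ _ h).elim h2 k2, fun h => (hne _ _ h).elim h3 k3, ?_, ?_, ?_⟩
    · have := Y.add_mem h4 k4
      rw [add_smul]
      rw [Prod.fst_add]
      convert this using 1
      abel
    · rw [Prod.snd_add, Prod.fst_add, h5, k5]; ring
    · rw [Prod.snd_add, Prod.snd_add, h6, k6]
  smul_mem' := by
    rintro c x ⟨c1, c2, c3, h1, h2, h3, h4, h5, h6⟩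
    rcases two_cases c with rfl | rfl
    · exact ⟨0, 0, 0, by simp, by simp, by simp, by simp, by simp, by simp⟩
    · rw [one_smul]
      exact ⟨c1, c2, c3, h1, h2, h3, h4, h5, h6⟩

lemma mem_D {a : B} {Y : Submodule F2 B} {t : Fl} {x : B × F2 × F2} : x ∈ D a Y t ↔
    ∃ c1 c2 c3 : F2, (c1 ≠ 0 → t.1 = true) ∧ (c2 ≠ 0 → t.2.1 = true) ∧
    (c3 ≠ 0 → t.2.2 = true) ∧ x.1 + c2 • a ∈ Y ∧ x.2.1 = c1 + c2 + c3 ∧ x.2.2 = c3 := Iff.rfl

/-- the closure rules -/
def Valid (a b : B) (Y : Submodule F2 B) (t : Fl) : Prop :=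
  (a ∈ Y → (t.1 = true ↔ t.2.1 = true)) ∧ (t.1 = true → t.2.1 = true → a ∈ Y) ∧
  (b ∈ Y → (t.1 = true ↔ t.2.2 = true)) ∧ (t.1 = true → t.2.2 = true → b ∈ Y) ∧
  (t.2.1 = true → t.2.2 = true → a + b ∈ Y → a ∈ Y)

section memD

variable {a b : B} {Y : Submodule F2 B} {t : Fl}

lemma mem00 (h : Valid a b Y t) (x : B) : (x, (0 : F2), (0 : F2)) ∈ D a Y t ↔ x ∈ Y := by
  rw [mem_D]
  constructor
  · rintro ⟨c1, c2, c3, h1, h2, h3, h4, h5, h6⟩
    simp only at h4 h5 h6
    subst h6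
    rcases two_cases c2 with rfl | rfl
    · simpa using h4
    · have h7 : c1 = 1 := c_eq1 c1 h5
      subst h7
      have h8 := h.2.1 (h1 (by decide)) (h2 (by decide))
      rw [one_smul] at h4
      have := Y.add_mem h4 h8
      rwa [add_self_cancel] at this
  · intro hx
    exact ⟨0, 0, 0, by simp, by simp, by simp, by simpa using hx, by simp, by simp⟩

lemma mem11 (h : Valid a b Y t) (x : B) :
    (x, (1 : F2), (1 : F2)) ∈ D a Y t ↔ (t.2.2 = true ∧ x ∈ Y) := by
  rw [mem_D]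
  constructor
  · rintro ⟨c1, c2, c3, h1, h2, h3, h4, h5, h6⟩
    simp only at h4 h5 h6
    subst h6
    refine ⟨h3 (by decide), ?_⟩
    rcases two_cases c2 with rfl | rfl
    · simpa using h4
    · have h7 : c1 = 1 := c_eq2 c1 h5
      subst h7
      have h8 := h.2.1 (h1 (by decide)) (h2 (by decide))
      rw [one_smul] at h4
      have := Y.add_mem h4 h8
      rwa [add_self_cancel] at this
  · rintro ⟨h3, hx⟩
    exact ⟨0, 0, 1, by simp, by simp, fun _ => h3, by simpa using hx, by simp, by simp⟩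

lemma mem10 (x : B) : (x, (1 : F2), (0 : F2)) ∈ D a Y t ↔
    ((t.1 = true ∧ x ∈ Y) ∨ (t.2.1 = true ∧ x + a ∈ Y)) := by
  rw [mem_D]
  constructor
  · rintro ⟨c1, c2, c3, h1, h2, h3, h4, h5, h6⟩
    simp only at h4 h5 h6
    subst h6
    rcases two_cases c2 with rfl | rfl
    · left
      have h7 : c1 = 1 := c_eq3 c1 h5
      subst h7
      exact ⟨h1 (by decide), by simpa using h4⟩
    · right
      exact ⟨h2 (by decide), by simpa using h4⟩
  · rintro (⟨h1, hx⟩ | ⟨h2, hx⟩)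
    · exact ⟨1, 0, 0, fun _ => h1, by simp, by simp, by simpa using hx, by simp, by simp⟩
    · exact ⟨0, 1, 0, by simp, fun _ => h2, by simp, by simpa using hx, by simp, by simp⟩

lemma mem01 (x : B) : (x, (0 : F2), (1 : F2)) ∈ D a Y t ↔
    (t.2.2 = true ∧ ((t.1 = true ∧ x ∈ Y) ∨ (t.2.1 = true ∧ x + a ∈ Y))) := by
  rw [mem_D]
  constructor
  · rintro ⟨c1, c2, c3, h1, h2, h3, h4, h5, h6⟩
    simp only at h4 h5 h6
    subst h6
    refine ⟨h3 (by decide), ?_⟩
    rcases two_cases c2 with rfl | rfl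
    · left
      have h7 : c1 = 1 := c_eq4 c1 h5
      subst h7
      exact ⟨h1 (by decide), by simpa using h4⟩
    · right
      exact ⟨h2 (by decide), by simpa using h4⟩
  · rintro ⟨h3, (⟨h1, hx⟩ | ⟨h2, hx⟩)⟩
    · exact ⟨1, 0, 1, fun _ => h1, by simp, fun _ => h3, by simpa using hx, by
        simp only; decide, by simp⟩
    · exact ⟨0, 1, 1, by simp, fun _ => h2, fun _ => h3, by simpa using hx, by
        simp only; decide, by simp⟩

end memD

lemma mem_sup_two {V : Type*} [AddCommGroup V] [Module F2 V] {W : Submodule F2 V} {z g : V} :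
    z ∈ W ⊔ span F2 {g} ↔ (z ∈ W ∨ z + g ∈ W) := by
  rw [Submodule.mem_sup]
  constructor
  · rintro ⟨y, hy, w, hw, rfl⟩
    obtain ⟨c, rfl⟩ := Submodule.mem_span_singleton.1 hw
    rcases two_cases c with rfl | rfl
    · left; simpa using hy
    · right; rw [one_smul, add_self_cancel]; exact hy
  · rintro (h | h)
    · exact ⟨z, h, 0, zero_mem _, by simp⟩
    · exact ⟨z + g, h, g, Submodule.mem_span_singleton_self g, by rw [add_self_cancel]⟩

/-- the line along which we truncate -/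
def L (b : B) : Submodule F2 (B × F2 × F2) := span F2 {(b, 0, 0), (0, 0, 1)}

lemma L_le {b : B} {W : Submodule F2 (B × F2 × F2)} :
    L b ≤ W ↔ ((b, (0 : F2), (0 : F2)) ∈ W ∧ ((0 : B), (0 : F2), (1 : F2)) ∈ W) := by
  rw [L, span_le, Set.insert_subset_iff, Set.singleton_subset_iff]
  rfl

lemma L_ne_bot {b : B} : L b ≠ ⊥ := by
  intro h
  have h1 : ((0 : B), (0 : F2), (1 : F2)) ∈ L b := (L_le.1 le_rfl).2
  rw [h, Submodule.mem_bot] at h1
  have h2 := congrArg (fun x : B × F2 × F2 => x.2.2) h1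
  simp at h2

/-- the ground set of the configuration -/
def E0 (a : B) : Set (B × F2 × F2) :=
  {x | x.1 ≠ 0 ∧ x.2 = 0} ∪ {(0, 1, 0), (a, 1, 0), (0, 1, 1)}

lemma mem_E0 {a : B} {x : B × F2 × F2} : x ∈ E0 a ↔
    ((∃ h : B, h ≠ 0 ∧ x = (h, 0, 0)) ∨ x = (0, 1, 0) ∨ x = (a, 1, 0) ∨ x = (0, 1, 1)) := by
  unfold E0
  rw [Set.mem_union, Set.mem_insert_iff, Set.mem_insert_iff, Set.mem_singleton_iff]
  refine or_congr ?_ Iff.rfl
  constructor
  · rintro ⟨h1, h2⟩
    exact ⟨x.1, h1, Prod.ext rfl h2⟩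
  · rintro ⟨h, h1, rfl⟩
    exact ⟨h1, rfl⟩

section main

variable {ι : Type*} [Finite ι] [Module.Finite F2 B] {a b : B} {v : ι → B × F2 × F2}

/-- the set of elements belonging to `Y` and the flags `t` -/
def G (a : B) (v : ι → B × F2 × F2) (Y : Submodule F2 B) (t : Fl) : Set ι :=
  {i | ((v i).2 = 0 ∧ (v i).1 ∈ Y) ∨ (v i = (0, 1, 0) ∧ t.1 = true) ∨
    (v i = (a, 1, 0) ∧ t.2.1 = true) ∨ (v i = (0, 1, 1) ∧ t.2.2 = true)}

lemma span_G (hr : Set.range v = E0 a) (Y : Submodule F2 B) (t : Fl) :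
    span F2 (v '' G a v Y t) = D a Y t := by
  apply le_antisymm
  · rw [span_le]
    rintro _ ⟨i, hi, rfl⟩
    rcases hi with ⟨h1, h2⟩ | ⟨h1, h2⟩ | ⟨h1, h2⟩ | ⟨h1, h2⟩
    · refine ⟨0, 0, 0, by simp, by simp, by simp, by simpa using h2, ?_, ?_⟩
      · rw [h1]; simp
      · rw [h1]; simp
    · rw [h1]
      exact ⟨1, 0, 0, fun _ => h2, by simp, by simp, by simp, by simp, by simp⟩
    · rw [h1]
      exact ⟨0, 1, 0, by simp, fun _ => h2, by simp, by simp [self_add], by simp, by simp⟩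
    · rw [h1]
      exact ⟨0, 0, 1, by simp, by simp, fun _ => h2, by simp, by simp, by simp⟩
  · rintro x ⟨c1, c2, c3, h1, h2, h3, h4, h5, h6⟩
    have hx : x = (x.1 + c2 • a, 0, 0) + c1 • ((0 : B), (1 : F2), (0 : F2)) +
        c2 • (a, (1 : F2), (0 : F2)) + c3 • ((0 : B), (1 : F2), (1 : F2)) := by
      apply Prod.ext
      · simp only [Prod.fst_add, Prod.smul_fst, smul_zero, add_zero]
        rw [add_self_cancel]
      · apply Prod.ext
        · simp [h5]
        · simp [h6]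
    rw [hx]
    have hmem : ∀ g ∈ E0 a, (∀ i, v i = g → i ∈ G a v Y t) → g ∈ span F2 (v '' G a v Y t) := by
      intro g hg h
      rw [← hr] at hg
      obtain ⟨i, rfl⟩ := hg
      exact subset_span ⟨i, h i rfl, rfl⟩
    refine add_mem (add_mem (add_mem ?_ ?_) ?_) ?_
    · by_cases h0 : x.1 + c2 • a = 0
      · rw [h0]; exact zero_mem _
      · apply hmem _ (mem_E0.2 (Or.inl ⟨_, h0, rfl⟩))
        intro i hi
        left
        rw [hi]
        exact ⟨rfl, h4⟩
    · by_cases hc : c1 = 0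
      · rw [hc, zero_smul]; exact zero_mem _
      · apply Submodule.smul_mem
        apply hmem _ (mem_E0.2 (Or.inr (Or.inl rfl)))
        intro i hi
        right; left
        exact ⟨hi, h1 hc⟩
    · by_cases hc : c2 = 0
      · rw [hc, zero_smul]; exact zero_mem _
      · apply Submodule.smul_mem
        apply hmem _ (mem_E0.2 (Or.inr (Or.inr (Or.inl rfl))))
        intro i hi
        right; right; left
        exact ⟨hi, h2 hc⟩
    · by_cases hc : c3 = 0
      · rw [hc, zero_smul]; exact zero_mem _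
      · apply Submodule.smul_mem
        apply hmem _ (mem_E0.2 (Or.inr (Or.inr (Or.inr rfl))))
        intro i hi
        right; right; right
        exact ⟨hi, h3 hc⟩

/-- valid pairs give flats -/
theorem flat_of_valid (hr : Set.range v = E0 a) {Y : Submodule F2 B} {t : Fl}
    (h : Valid a b Y t) : (mat v (L b) L_ne_bot).IsFlat (G a v Y t) := by
  rw [isFlat_iff]
  intro e he
  rw [span_G hr]
  have hvE : v e ∈ E0 a := by rw [← hr]; exact ⟨e, rfl⟩
  rw [L_le, L_le, mem_sup_two, mem_sup_two, mem00 h, mem01]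
  have he' : ¬ (((v e).2 = 0 ∧ (v e).1 ∈ Y) ∨ (v e = (0, 1, 0) ∧ t.1 = true) ∨
    (v e = (a, 1, 0) ∧ t.2.1 = true) ∨ (v e = (0, 1, 1) ∧ t.2.2 = true)) := he
  push Not at he'
  obtain ⟨hA1, hA2, hB1, hB2, hC⟩ := h
  have hV : Valid a b Y t := ⟨hA1, hA2, hB1, hB2, hC⟩
  have h0Y : (0 : B) ∈ Y := zero_mem Y
  have haa : a + a = 0 := self_add a
  rcases mem_E0.1 hvE with ⟨x, hx0, hx⟩ | hx | hx | hx
  · -- a point of the projective space
    rw [hx]
    have hxY : x ∉ Y := by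
      have := he'.1
      rw [hx] at this
      exact this rfl
    simp only [Prod.mk_add_mk, add_zero, zero_add]
    rw [mem00 hV, mem00 hV, mem01]
    refine ⟨hxY, ?_⟩
    have k1 : b ∈ Y → b + x ∉ Y := fun h1 h2 => hxY (by
      have := Y.add_mem h1 h2
      rwa [← add_assoc, self_add, zero_add] at this)
    have k2 : a ∈ Y → x + a ∉ Y := fun h1 h2 => hxY (by
      have := Y.add_mem h2 h1
      rwa [add_self_cancel] at this)
    have k3 : b + x ∈ Y → x + a ∈ Y → a + b ∈ Y := fun h1 h2 => by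
      have := Y.add_mem h1 h2
      have e1 : b + x + (x + a) = a + b := by
        rw [show b + x + (x + a) = b + (x + x) + a by abel, self_add]; abel
      rwa [e1] at this
    grind
  · rw [hx]
    have ht : ¬ t.1 = true := he'.2.1 hx
    simp only [Prod.mk_add_mk, add_zero, zero_add]
    rw [mem10, mem10, show ((1 : F2)) = 1 from rfl, mem11 hV]
    simp only [zero_add]
    have k : b + a ∈ Y → a + b ∈ Y := fun h => by rwa [add_comm]
    grind
  · rw [hx]
    have ht : ¬ t.2.1 = true := he'.2.2.1 hx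
    simp only [Prod.mk_add_mk, add_zero, zero_add]
    rw [mem10, mem10, mem11 hV]
    have k : b + a ∈ Y → a + b ∈ Y := fun h => by rwa [add_comm]
    have k1 : b ∈ Y → b + a ∈ Y → a ∈ Y := fun h1 h2 => by
      have := Y.add_mem h1 h2
      rwa [← add_assoc, self_add, zero_add] at this
    grind
  · rw [hx]
    have ht : ¬ t.2.2 = true := he'.2.2.2 hx
    simp only [Prod.mk_add_mk, add_zero, zero_add]
    rw [show (1 : F2) + 1 = 0 by decide, mem11 hV, mem11 hV, mem10]
    simp only [zero_add]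
    grind

/-- every flat comes from a valid pair -/
theorem valid_of_flat (ha : a ≠ 0) (hb : b ≠ 0) (hr : Set.range v = E0 a) {X : Set ι}
    (hX : (mat v (L b) L_ne_bot).IsFlat X) : ∃ Y t, Valid a b Y t ∧ X = G a v Y t := by
  classical
  rw [isFlat_iff] at hX
  set W := span F2 (v '' X) with hW
  have hmem : ∀ i, i ∈ X ↔ v i ∈ W := by
    intro i
    constructor
    · intro hi; exact subset_span ⟨i, hi, rfl⟩
    · intro hi
      by_contra hne
      exact (hX i hne).1 hi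
  have hP : ∀ g ∈ E0 a, g ∉ W → L b ≤ W ⊔ span F2 {g} → L b ≤ W := by
    intro g hg hgW hL
    rw [← hr] at hg
    obtain ⟨i, rfl⟩ := hg
    exact (hX i (fun h => hgW ((hmem i).1 h))).2 hL
  have m1 : ((0 : B), (1 : F2), (0 : F2)) ∈ E0 a := mem_E0.2 (Or.inr (Or.inl rfl))
  have m2 : (a, (1 : F2), (0 : F2)) ∈ E0 a := mem_E0.2 (Or.inr (Or.inr (Or.inl rfl)))
  have m3 : ((0 : B), (1 : F2), (1 : F2)) ∈ E0 a := mem_E0.2 (Or.inr (Or.inr (Or.inr rfl)))
  have ma : (a, (0 : F2), (0 : F2)) ∈ E0 a := mem_E0.2 (Or.inl ⟨a, ha, rfl⟩)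
  have mb : (b, (0 : F2), (0 : F2)) ∈ E0 a := mem_E0.2 (Or.inl ⟨b, hb, rfl⟩)
  have haa : a + a = 0 := self_add a
  have h11 : (1 : F2) + 1 = 0 := by decide
  -- abbreviations for the needed memberships
  have key : ∀ x y z : B × F2 × F2, x ∈ W → y ∈ W → z = x + y → z ∈ W := by
    rintro x y z hx hy rfl
    exact add_mem hx hy
  refine ⟨W.comap (LinearMap.inl F2 B (F2 × F2)),
    (decide (((0 : B), (1 : F2), (0 : F2)) ∈ W), decide ((a, (1 : F2), (0 : F2)) ∈ W),
      decide (((0 : B), (1 : F2), (1 : F2)) ∈ W)), ?_, ?_⟩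
  · simp only [Valid, Submodule.mem_comap, LinearMap.inl_apply, decide_eq_true_eq]
    have z0 : ((0 : F2 × F2)) = ((0 : F2), (0 : F2)) := rfl
    rw [z0]
    refine ⟨fun h => ⟨fun h1 => ?_, fun h1 => ?_⟩, fun h1 h2 => ?_, fun h => ⟨fun h1 => ?_,
      fun h1 => ?_⟩, fun h1 h2 => ?_, fun h1 h2 h3 => ?_⟩
    · exact key _ _ _ h h1 (by simp)
    · exact key _ _ _ h h1 (by simp [haa])
    · exact key _ _ _ h1 h2 (by simp [h11])
    · by_contra hne
      have h2 := L_le.1 (hP _ m3 hne (L_le.2 ⟨mem_sup_two.2 (Or.inl h),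
        mem_sup_two.2 (Or.inr (by simpa [h11] using h1))⟩))
      exact hne (key _ _ _ h1 h2.2 (by simp))
    · by_contra hne
      have h2 := L_le.1 (hP _ m1 hne (L_le.2 ⟨mem_sup_two.2 (Or.inl h),
        mem_sup_two.2 (Or.inr (by simpa [h11] using h1))⟩))
      exact hne (key _ _ _ h1 h2.2 (by simp [h11]))
    · by_contra hne
      have h001 : ((0 : B), (0 : F2), (1 : F2)) ∈ W := key _ _ _ h1 h2 (by simp [h11])
      have h3 := L_le.1 (hP _ mb hne (L_le.2 ⟨mem_sup_two.2 (Or.inr (by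
        simp [self_add])), mem_sup_two.2 (Or.inl h001)⟩))
      exact hne h3.1
    · by_contra hne
      have ha01 : (a, (0 : F2), (1 : F2)) ∈ W := key _ _ _ h1 h2 (by simp [h11])
      have h4 := L_le.1 (hP _ ma hne (L_le.2 ⟨mem_sup_two.2 (Or.inr (by
        simpa [add_comm] using h3)), mem_sup_two.2 (Or.inr (by simpa using ha01))⟩))
      exact hne (key _ _ _ h3 h4.1 (by simp [add_self_cancel]))
  · ext i
    have hvE : v i ∈ E0 a := by rw [← hr]; exact ⟨i, rfl⟩
    rw [hmem]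
    simp only [G, Set.mem_ofPred_eq, Submodule.mem_comap, LinearMap.inl_apply, decide_eq_true_eq]
    have z0 : ((0 : F2 × F2)) = ((0 : F2), (0 : F2)) := rfl
    have hF : ∀ x : F2, (1 : F2) = 0 ↔ False := by decide
    rcases mem_E0.1 hvE with ⟨x, hx0, hx⟩ | hx | hx | hx
    · rw [hx]; simp [z0]
    · rw [hx]; simp [z0, ha.symm]
    · rw [hx]; simp [z0, ha]
    · rw [hx]; simp [z0]

end main

end Pool.Agent.H594R3.Ex
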