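import Pool.Agent.H594R3.Cnt
import Pool.Agent.H594R3.Ex1

/-!
The numerical tables of the example and the finite verification of the summation identities.
-/

set_option autoImplicit false

namespace Pool.Agent.H594R3.Ex

def wl0 : ℕ → List ℤ
  | 0 => [1]
  | 1 => [-1, -1]
  | 2 => [2, 3, 2]
  | 3 => [-8, -14, -14, -8]
  | 4 => [64, 120, 140, 120, 64]
  | 5 => [-1024, -1984, -2480, -2480, -1984, -1024]
  | 6 => [32768, 64512, 83328, 89280, 83328, 64512, 32768]
  | 7 => [-2097152, -4161536, -5462016, -6047232, -6047232, -5462016, -4161536, -2097152]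
  | _ => []

def wl1 : ℕ → List ℤ
  | 0 => [-1, -1]
  | 1 => [1, 2, 1]
  | 2 => [-2, -5, -5, -2]
  | 3 => [8, 22, 28, 22, 8]
  | 4 => [-64, -184, -260, -260, -184, -64]
  | 5 => [1024, 3008, 4464, 4960, 4464, 3008, 1024]
  | 6 => [-32768, -97280, -147840, -172608, -172608, -147840, -97280, -32768]
  | 7 => [2097152, 6258688, 9623552, 11509248, 12094464, 11509248, 9623552, 6258688, 2097152]
  | _ => []

def wl2 : ℕ → List ℤ
  | 1 => [2, 3, 2]
  | 2 => [-4, -9, -9, -4]
  | 3 => [16, 42, 53, 42, 16]
  | 4 => [-128, -360, -506, -506, -360, -128]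
  | 5 => [2048, 5952, 8808, 9780, 8808, 5952, 2048]
  | 6 => [-65536, -193536, -293696, -342736, -342736, -293696, -193536, -65536]
  | 7 => [4194304, 12484608, 19182592, 22935168, 24099648, 22935168, 19182592, 12484608, 4194304]
  | _ => []

def wl3 : ℕ → List ℤ
  | 0 => [1, 2, 1]
  | 1 => [-1, -3, -3, -1]
  | 2 => [2, 7, 10, 7, 2]
  | 3 => [-8, -30, -50, -50, -30, -8]
  | 4 => [64, 248, 444, 520, 444, 248, 64]
  | 5 => [-1024, -4032, -7472, -9424, -9424, -7472, -4032, -1024]
  | 6 => [32768, 130048, 245120, 320448, 345216, 320448, 245120, 130048, 32768]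
  | 7 => [-2097152, -8355840, -15882240, -21132800, -23603712, -23603712, -21132800, -15882240, -8355840, -2097152]
  | _ => []

def wl4 : ℕ → List ℤ
  | 2 => [-7, -15, -15, -7]
  | 3 => [28, 74, 91, 74, 28]
  | 4 => [-224, -648, -914, -914, -648, -224]
  | 5 => [3584, 10816, 16360, 18095, 16360, 10816, 3584]
  | 6 => [-114688, -353280, -553280, -648778, -648778, -553280, -353280, -114688]
  | 7 => [7340032, 22839296, 36393984, 44059656, 46257394, 44059656, 36393984, 22839296, 7340032]
  | _ => []

def vl0 : ℕ → List ℤ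
  | 0 => [1]
  | 1 => [-1]
  | 2 => [2]
  | 3 => [-8]
  | 4 => [64]
  | 5 => [-1024]
  | 6 => [32768]
  | 7 => [-2097152]
  | _ => []

def vl1 : ℕ → List ℤ
  | 0 => [-1]
  | 1 => [1]
  | 2 => [-2]
  | 3 => [8]
  | 4 => [-64]
  | 5 => [1024]
  | 6 => [-32768]
  | 7 => [2097152]
  | _ => []

def vl2 : ℕ → List ℤ
  | 1 => [2]
  | 2 => [-4, -1]
  | 3 => [16, 6]
  | 4 => [-128, -56]
  | 5 => [2048, 960]
  | 6 => [-65536, -31744]
  | 7 => [4194304, 2064384]
  | _ => []

def vl3 : ℕ → List ℤ
  | 0 => [1]
  | 1 => [-1]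
  | 2 => [2]
  | 3 => [-8]
  | 4 => [64]
  | 5 => [-1024]
  | 6 => [32768]
  | 7 => [-2097152]
  | _ => []

def vl4 : ℕ → List ℤ
  | 2 => [-7, -3]
  | 3 => [28, 19]
  | 4 => [-224, -180, -27]
  | 5 => [3584, 3104, 756]
  | 6 => [-114688, -102912, -30240, -5670]
  | 7 => [7340032, 6701056, 2142720, 703080]
  | _ => []

/-- the palindromic polynomials -/
def W (t : Fl) (k : ℕ) : List ℤ :=
  if t.2.2 then (if t.2.1 then (if t.1 then wl4 k else wl3 k) else (if t.1 then wl2 k else wl1 k))
  else (if t.2.1 then (if t.1 then wl2 k else wl1 k) else (if t.1 then wl1 k else wl0 k))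

/-- the low degree polynomials -/
def Vv (t : Fl) (k : ℕ) : List ℤ :=
  if t.2.2 then (if t.2.1 then (if t.1 then vl4 k else vl3 k) else (if t.1 then vl2 k else vl1 k))
  else (if t.2.1 then (if t.1 then vl2 k else vl1 k) else (if t.1 then vl1 k else vl0 k))

/-- the rank minus the dimension -/
def eps (t : Fl) : ℕ :=
  if t.2.2 then (if t.2.1 then (if t.1 then 1 else 2) else 1)
  else (if t.2.1 then 1 else (if t.1 then 1 else 0))

/-- boolean form of the closure rules -/
def vb (p q r : Bool) (t : Fl) : Bool :=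
  (!p || (t.1 == t.2.1)) && (!(t.1 && t.2.1) || p) && (!q || (t.1 == t.2.2)) &&
    (!(t.1 && t.2.2) || q) && (!(t.2.1 && t.2.2 && r) || p)

/-- inclusion of flags -/
def sle (s t : Fl) : Bool := (!s.1 || t.1) && (!s.2.1 || t.2.1) && (!s.2.2 || t.2.2)

/-- one summand -/
def term (t : Fl) (p q r : Bool) (s : Fl) (k i : ℕ) : ℤ :=
  if sle s t && vb p q r s then (W s k).getD i 0 else 0

/-- sum over the flags -/
def g (t : Fl) (p q r : Bool) (k i : ℕ) : ℤ :=
  term t p q r (false, false, false) k i + term t p q r (false, false, true) k i +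
  term t p q r (false, true, false) k i + term t p q r (false, true, true) k i +
  term t p q r (true, false, false) k i + term t p q r (true, false, true) k i +
  term t p q r (true, true, false) k i + term t p q r (true, true, true) k i

lemma sum_term (t : Fl) (p q r : Bool) (k i : ℕ) : ∑ s : Fl, term t p q r s k i = g t p q r k i := by
  simp only [Fintype.sum_prod_type, Fintype.sum_bool, g]
  ring

/-- finite sums by recursion -/
def sm : ℕ → (ℕ → ℤ) → ℤ
  | 0, _ => 0
  | n + 1, f => sm n f + f n

lemma sum_range_eq (n : ℕ) (f : ℕ → ℤ) : ∑ k ∈ Finset.range n, f k = sm n f := by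
  induction n with
  | zero => rfl
  | succ n ih => rw [Finset.sum_range_succ, ih]; rfl

/-- numbers of subspaces -/
def gt : List (List ℕ) :=
  [[1], [1, 1], [1, 3, 1], [1, 7, 7, 1], [1, 15, 35, 15, 1], [1, 31, 155, 155, 31, 1],
   [1, 63, 651, 1395, 651, 63, 1], [1, 127, 2667, 11811, 11811, 2667, 127, 1]]

/-- entry of the table -/
def gtf (n k : ℕ) : ℕ := (gt.getD n []).getD k 0

lemma gb_eq : ∀ n < 8, ∀ k < n + 1, Cnt.gb n k = gtf n k := by decide +kernel

/-- the sum of `h` over all subspaces of dimension at least `j` containing a fixed one of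
dimension `j` inside a space of dimension `y` -/
def Sj (y j : ℕ) (h : ℕ → ℤ) : ℤ := sm (y - j + 1) (fun k => (gtf (y - j) k : ℤ) * h (k + j))

/-- the position of the coefficient after reflection -/
def rv (N i : ℕ) : ℕ := if i ≤ N then N - i else i

/-- the master sum -/
def total (t : Fl) (p q r : Bool) (y i : ℕ) : ℤ :=
  Sj y 0 (fun k => g t false false false k i) +
  (if p then Sj y 1 (fun k => g t true false false k i - g t false false false k i) else 0) +
  (if q then Sj y 1 (fun k => g t false true false k i - g t false false false k i) else 0) +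
  (if r then Sj y 1 (fun k => g t false false true k i - g t false false false k i) else 0) +
  (if p && q then Sj y 2 (fun k => g t true true true k i - g t true false false k i -
    g t false true false k i - g t false false true k i + 2 * g t false false false k i) else 0)

/-- possible membership patterns together with the least dimension -/
def okp (p q r : Bool) (y : ℕ) : Bool :=
  if p then (if q then r && decide (2 ≤ y) else !r && decide (1 ≤ y))
  else (if q then !r && decide (1 ≤ y) else (!r || decide (1 ≤ y)))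

/-- the check -/
def chk (t : Fl) (p q r : Bool) (y i : ℕ) : Bool :=
  !(okp p q r y && vb p q r t) || decide (total t p q r y i = (Vv t y).getD (rv (y + eps t) i) 0)

lemma master0 : ∀ p q r : Bool, ∀ y < 8, ∀ i < 10, chk (false, false, false) p q r y i = true := by
  decide +kernel

lemma master1 : ∀ p q r : Bool, ∀ y < 8, ∀ i < 10, chk (true, false, false) p q r y i = true := by
  decide +kernel

lemma master2 : ∀ p q r : Bool, ∀ y < 8, ∀ i < 10, chk (false, true, false) p q r y i = true := by
  decide +kernel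

lemma master3 : ∀ p q r : Bool, ∀ y < 8, ∀ i < 10, chk (false, false, true) p q r y i = true := by
  decide +kernel

lemma master12 : ∀ p q r : Bool, ∀ y < 8, ∀ i < 10, chk (true, true, false) p q r y i = true := by
  decide +kernel

lemma master13 : ∀ p q r : Bool, ∀ y < 8, ∀ i < 10, chk (true, false, true) p q r y i = true := by
  decide +kernel

lemma master23 : ∀ p q r : Bool, ∀ y < 8, ∀ i < 10, chk (false, true, true) p q r y i = true := by
  decide +kernel

lemma master123 : ∀ p q r : Bool, ∀ y < 8, ∀ i < 10, chk (true, true, true) p q r y i = true := by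
  decide +kernel

lemma master (t : Fl) (p q r : Bool) {y i : ℕ} (hy : y < 8) (hi : i < 10) :
    chk t p q r y i = true := by
  obtain ⟨t1, t2, t3⟩ := t
  cases t1 <;> cases t2 <;> cases t3
  · exact master0 p q r y hy i hi
  · exact master3 p q r y hy i hi
  · exact master2 p q r y hy i hi
  · exact master23 p q r y hy i hi
  · exact master1 p q r y hy i hi
  · exact master13 p q r y hy i hi
  · exact master12 p q r y hy i hi
  · exact master123 p q r y hy i hi

/-- possible validity patterns -/
def okv (t : Fl) (y : ℕ) : Bool :=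
  (!(t.1 && t.2.1) || decide (1 ≤ y)) && (!(t.1 && t.2.2) || decide (1 ≤ y)) &&
  (!(t.1 && t.2.1 && t.2.2) || decide (2 ≤ y))

lemma wpal : ∀ t : Fl, ∀ y < 8, ∀ i < 10,
    (W t y).getD (rv (y + eps t) i) 0 = (W t y).getD i 0 := by
  decide +kernel

lemma wlen : ∀ t : Fl, ∀ y < 8, (W t y).length ≤ y + eps t + 1 := by
  decide +kernel

lemma vlen : ∀ t : Fl, ∀ y < 8, okv t y = true → (t = (false, false, false) → y ≠ 0) →
    2 * ((Vv t y).length - 1) < y + eps t := by
  decide +kernel

lemma vlen' : ∀ t : Fl, ∀ y < 8, (Vv t y).length ≤ 10 := by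
  decide +kernel

end Pool.Agent.H594R3.Ex
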