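import Pool.Agent.H594R3.KL2
import Pool.Agent.H594R3.Tab

/-!
The certificate for the flats of the example.
-/

set_option autoImplicit false

namespace Pool.Agent.H594R3.Ex

open Module Submodule Pool.Agent.H594R3.TM Pool.Agent.H594R3.KL Polynomial

/-- the polynomial with the given list of coefficients -/
noncomputable def ofL (l : List ℤ) : ℤ[X] := ∑ i ∈ Finset.range l.length, C (l.getD i 0) * X ^ i

lemma coeff_ofL (l : List ℤ) (i : ℕ) : (ofL l).coeff i = l.getD i 0 := by
  unfold ofL
  rw [finsetSum_coeff]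
  simp only [coeff_C_mul, coeff_X_pow]
  rw [Finset.sum_congr rfl (fun j _ => show l.getD j 0 * (if i = j then (1 : ℤ) else 0) =
    if i = j then l.getD i 0 else 0 by split_ifs with h <;> simp [h])]
  rw [Finset.sum_ite_eq]
  split_ifs with h
  · rfl
  · rw [Finset.mem_range] at h
    rw [List.getD_eq_default _ _ (by omega)]

lemma natDegree_ofL (l : List ℤ) : (ofL l).natDegree ≤ l.length - 1 := by
  rw [natDegree_le_iff_coeff_eq_zero]
  intro N hN
  rw [coeff_ofL, List.getD_eq_default _ _ (by omega)]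

lemma revAt_eq_rv (N i : ℕ) : revAt N i = rv N i := by
  unfold rv
  split_ifs with h
  · exact revAt_le h
  · exact revAt_eq_self_of_lt (by omega)

lemma o11 : (1 : F2) + 1 = 0 := by decide

section general

variable {B : Type} [AddCommGroup B] [Module F2 B] [Finite B] {a b : B}

lemma fl_ext_iff (s t : Fl) : sle s t = true ↔
    ((s.1 = true → t.1 = true) ∧ (s.2.1 = true → t.2.1 = true) ∧ (s.2.2 = true → t.2.2 = true)) := by
  obtain ⟨s1, s2, s3⟩ := s
  obtain ⟨t1, t2, t3⟩ := t
  revert s1 s2 s3 t1 t2 t3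
  decide

lemma sle_antisymm (s t : Fl) (h1 : sle s t = true) (h2 : sle t s = true) : s = t := by
  obtain ⟨s1, s2, s3⟩ := s
  obtain ⟨t1, t2, t3⟩ := t
  revert s1 s2 s3 t1 t2 t3
  decide

open Classical in
lemma valid_iff_vb (Y : Submodule F2 B) (t : Fl) :
    Valid a b Y t ↔ vb (decide (a ∈ Y)) (decide (b ∈ Y)) (decide (a + b ∈ Y)) t = true := by
  obtain ⟨t1, t2, t3⟩ := t
  unfold Valid vb
  by_cases h1 : a ∈ Y <;> by_cases h2 : b ∈ Y <;> by_cases h3 : a + b ∈ Y <;>
    simp only [h1, h2, h3, decide_true, decide_false] <;> revert t1 t2 t3 <;> decide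

section set

variable {ι : Type*} {v : ι → B × F2 × F2}

lemma G_subset_iff (ha : a ≠ 0) (hr : Set.range v = E0 a) (Z Y : Submodule F2 B) (s t : Fl) :
    G a v Z s ⊆ G a v Y t ↔ (Z ≤ Y ∧ sle s t = true) := by
  rw [fl_ext_iff]
  constructor
  · intro h
    have hmem : ∀ g ∈ E0 a, ∃ i, v i = g := by
      intro g hg
      rw [← hr] at hg
      exact hg
    refine ⟨fun x hx => ?_, fun hs => ?_, fun hs => ?_, fun hs => ?_⟩
    · by_cases hx0 : x = 0
      · rw [hx0]; exact zero_mem _
      · obtain ⟨i, hi⟩ := hmem (x, 0, 0) (mem_E0.2 (Or.inl ⟨x, hx0, rfl⟩))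
        have h1 : i ∈ G a v Z s := Or.inl (by rw [hi]; exact ⟨rfl, hx⟩)
        rcases h h1 with ⟨-, h2⟩ | ⟨h2, -⟩ | ⟨h2, -⟩ | ⟨h2, -⟩
        · rw [hi] at h2; exact h2
        all_goals
          rw [hi] at h2
          simp at h2
    · obtain ⟨i, hi⟩ := hmem (0, 1, 0) (mem_E0.2 (Or.inr (Or.inl rfl)))
      have h1 : i ∈ G a v Z s := Or.inr (Or.inl ⟨hi, hs⟩)
      rcases h h1 with ⟨h2, -⟩ | ⟨-, h2⟩ | ⟨h2, -⟩ | ⟨h2, -⟩
      · rw [hi] at h2; simp at h2
      · exact h2
      · rw [hi] at h2; simp [ha.symm] at h2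
      · rw [hi] at h2; simp at h2
    · obtain ⟨i, hi⟩ := hmem (a, 1, 0) (mem_E0.2 (Or.inr (Or.inr (Or.inl rfl))))
      have h1 : i ∈ G a v Z s := Or.inr (Or.inr (Or.inl ⟨hi, hs⟩))
      rcases h h1 with ⟨h2, -⟩ | ⟨h2, -⟩ | ⟨-, h2⟩ | ⟨h2, -⟩
      · rw [hi] at h2; simp at h2
      · rw [hi] at h2; simp [ha] at h2
      · exact h2
      · rw [hi] at h2; simp at h2
    · obtain ⟨i, hi⟩ := hmem (0, 1, 1) (mem_E0.2 (Or.inr (Or.inr (Or.inr rfl))))
      have h1 : i ∈ G a v Z s := Or.inr (Or.inr (Or.inr ⟨hi, hs⟩))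
      rcases h h1 with ⟨h2, -⟩ | ⟨h2, -⟩ | ⟨h2, -⟩ | ⟨-, h2⟩
      · rw [hi] at h2; simp at h2
      · rw [hi] at h2; simp at h2
      · rw [hi] at h2; simp at h2
      · exact h2
  · rintro ⟨h1, h2, h3, h4⟩ i hi
    rcases hi with ⟨k1, k2⟩ | ⟨k1, k2⟩ | ⟨k1, k2⟩ | ⟨k1, k2⟩
    · exact Or.inl ⟨k1, h1 k2⟩
    · exact Or.inr (Or.inl ⟨k1, h2 k2⟩)
    · exact Or.inr (Or.inr (Or.inl ⟨k1, h3 k2⟩))
    · exact Or.inr (Or.inr (Or.inr ⟨k1, h4 k2⟩))

end set

lemma D_fff (Y : Submodule F2 B) : D a Y (false, false, false) = Y.map (LinearMap.inl F2 B (F2 × F2)) := by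
  ext x
  rw [mem_D, Submodule.mem_map]
  constructor
  · rintro ⟨c1, c2, c3, h1, h2, h3, h4, h5, h6⟩
    have e1 : c1 = 0 := by by_contra h; exact absurd (h1 h) (by simp)
    have e2 : c2 = 0 := by by_contra h; exact absurd (h2 h) (by simp)
    have e3 : c3 = 0 := by by_contra h; exact absurd (h3 h) (by simp)
    subst e1 e2 e3
    refine ⟨x.1, by simpa using h4, ?_⟩
    rw [LinearMap.inl_apply]
    refine Prod.ext rfl (Prod.ext ?_ ?_)
    · simp [h5]
    · simp [h6]
  · rintro ⟨y, hy, rfl⟩
    exact ⟨0, 0, 0, by simp, by simp, by simp, by simpa using hy, by simp, by simp⟩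

lemma D_t1 (Y : Submodule F2 B) (t2 t3 : Bool) :
    D a Y (true, t2, t3) = D a Y (false, t2, t3) ⊔ span F2 {((0 : B), (1 : F2), (0 : F2))} := by
  ext x
  rw [mem_sup_two, mem_D, mem_D, mem_D]
  constructor
  · rintro ⟨c1, c2, c3, h1, h2, h3, h4, h5, h6⟩
    rcases two_cases c1 with rfl | rfl
    · left
      exact ⟨0, c2, c3, by simp, h2, h3, h4, h5, h6⟩
    · right
      refine ⟨0, c2, c3, by simp, h2, h3, by simpa using h4, ?_, by simpa using h6⟩
      simp only [Prod.snd_add, Prod.fst_add]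
      rw [h5]
      linear_combination o11
  · rintro (⟨c1, c2, c3, h1, h2, h3, h4, h5, h6⟩ | ⟨c1, c2, c3, h1, h2, h3, h4, h5, h6⟩)
    · have e1 : c1 = 0 := by by_contra h; exact absurd (h1 h) (by simp)
      subst e1
      exact ⟨0, c2, c3, by simp, h2, h3, h4, h5, h6⟩
    · have e1 : c1 = 0 := by by_contra h; exact absurd (h1 h) (by simp)
      subst e1
      refine ⟨1, c2, c3, by simp, h2, h3, by simpa using h4, ?_, by simpa using h6⟩
      simp only [Prod.snd_add, Prod.fst_add] at h5
      linear_combination h5 - o11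

lemma D_t2 (Y : Submodule F2 B) (t1 t3 : Bool) :
    D a Y (t1, true, t3) = D a Y (t1, false, t3) ⊔ span F2 {(a, (1 : F2), (0 : F2))} := by
  ext x
  rw [mem_sup_two, mem_D, mem_D, mem_D]
  constructor
  · rintro ⟨c1, c2, c3, h1, h2, h3, h4, h5, h6⟩
    rcases two_cases c2 with rfl | rfl
    · left
      exact ⟨c1, 0, c3, h1, by simp, h3, h4, h5, h6⟩
    · right
      refine ⟨c1, 0, c3, h1, by simp, h3, by simpa using h4, ?_, by simpa using h6⟩
      simp only [Prod.snd_add, Prod.fst_add]
      rw [h5]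
      linear_combination o11
  · rintro (⟨c1, c2, c3, h1, h2, h3, h4, h5, h6⟩ | ⟨c1, c2, c3, h1, h2, h3, h4, h5, h6⟩)
    · have e1 : c2 = 0 := by by_contra h; exact absurd (h2 h) (by simp)
      subst e1
      exact ⟨c1, 0, c3, h1, by simp, h3, h4, h5, h6⟩
    · have e1 : c2 = 0 := by by_contra h; exact absurd (h2 h) (by simp)
      subst e1
      refine ⟨c1, 1, c3, h1, by simp, h3, by simpa using h4, ?_, by simpa using h6⟩
      simp only [Prod.snd_add, Prod.fst_add] at h5
      linear_combination h5 - o11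

lemma D_t3 (Y : Submodule F2 B) (t1 t2 : Bool) :
    D a Y (t1, t2, true) = D a Y (t1, t2, false) ⊔ span F2 {((0 : B), (1 : F2), (1 : F2))} := by
  ext x
  rw [mem_sup_two, mem_D, mem_D, mem_D]
  constructor
  · rintro ⟨c1, c2, c3, h1, h2, h3, h4, h5, h6⟩
    rcases two_cases c3 with rfl | rfl
    · left
      exact ⟨c1, c2, 0, h1, h2, by simp, h4, h5, h6⟩
    · right
      refine ⟨c1, c2, 0, h1, h2, by simp, by simpa using h4, ?_, ?_⟩
      · simp only [Prod.snd_add, Prod.fst_add]
        rw [h5]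
        linear_combination o11
      · simp only [Prod.snd_add]
        rw [h6]
        decide
  · rintro (⟨c1, c2, c3, h1, h2, h3, h4, h5, h6⟩ | ⟨c1, c2, c3, h1, h2, h3, h4, h5, h6⟩)
    · have e1 : c3 = 0 := by by_contra h; exact absurd (h3 h) (by simp)
      subst e1
      exact ⟨c1, c2, 0, h1, h2, by simp, h4, h5, h6⟩
    · have e1 : c3 = 0 := by by_contra h; exact absurd (h3 h) (by simp)
      subst e1
      refine ⟨c1, c2, 1, h1, h2, by simp, by simpa using h4, ?_, ?_⟩
      · simp only [Prod.snd_add, Prod.fst_add] at h5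
        linear_combination h5 - o11
      · simp only [Prod.snd_add] at h6
        linear_combination h6 - o11

lemma finrank_fff (Y : Submodule F2 B) : finrank F2 (D a Y (false, false, false)) = finrank F2 Y := by
  rw [D_fff]
  exact (Submodule.equivMapOfInjective _ LinearMap.inl_injective Y).finrank_eq.symm

lemma finrank_tff (Y : Submodule F2 B) :
    finrank F2 (D a Y (true, false, false)) = finrank F2 Y + 1 := by
  rw [D_t1, finrank_sup_span_singleton, finrank_fff]
  rw [mem10]
  simp

lemma finrank_ftf (Y : Submodule F2 B) :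
    finrank F2 (D a Y (false, true, false)) = finrank F2 Y + 1 := by
  rw [D_t2, finrank_sup_span_singleton, finrank_fff]
  rw [mem10]
  simp

lemma finrank_ttf (Y : Submodule F2 B) (h : a ∈ Y) :
    finrank F2 (D a Y (true, true, false)) = finrank F2 Y + 1 := by
  have h1 : D a Y (true, true, false) = D a Y (true, false, false) := by
    rw [D_t2, sup_eq_left, span_le, Set.singleton_subset_iff]
    exact (mem10 a).2 (Or.inl ⟨rfl, h⟩)
  rw [h1, finrank_tff]

lemma finrank_t3 (Y : Submodule F2 B) (t1 t2 : Bool) :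
    finrank F2 (D a Y (t1, t2, true)) = finrank F2 (D a Y (t1, t2, false)) + 1 := by
  rw [D_t3, finrank_sup_span_singleton]
  rintro ⟨c1, c2, c3, h1, h2, h3, h4, h5, h6⟩
  simp only at h6
  rw [← h6] at h3
  exact absurd (h3 (by decide)) (by simp)

/-- the rank of the flat belonging to a valid pair -/
theorem r_G {ι : Type*} [Finite ι] {v : ι → B × F2 × F2} (hr : Set.range v = E0 a)
    {Y : Submodule F2 B} {t : Fl} (h : Valid a b Y t) :
    r v (L b) (G a v Y t) = finrank F2 Y + eps t := by
  classical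
  unfold r
  rw [span_G hr, L_le, mem00 h, mem01, zero_add]
  obtain ⟨t1, t2, t3⟩ := t
  obtain ⟨hA1, hA2, hB1, hB2, hC⟩ := h
  simp only [zero_mem, and_true]
  simp only at hA1 hA2 hB1 hB2 hC
  cases t1 <;> cases t2 <;> cases t3
  · rw [finrank_fff]; simp [eps]
  · rw [finrank_t3, finrank_fff]; simp [eps]
  · rw [finrank_ftf]; simp [eps]
  · have h1 : b ∉ Y := fun h => by simpa using hB1 h
    rw [finrank_t3, finrank_ftf]; simp [eps, h1]
  · rw [finrank_tff]; simp [eps]
  · have h1 : b ∈ Y := by simpa using hB2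
    rw [finrank_t3, finrank_tff]; simp [eps, h1]
  · have h1 : a ∈ Y := by simpa using hA2
    rw [finrank_ttf Y h1]; simp [eps]
  · have h1 : a ∈ Y := by simpa using hA2
    have h2 : b ∈ Y := by simpa using hB2
    rw [finrank_t3, finrank_ttf Y h1]; simp [eps, h2]

noncomputable local instance instFt : Fintype (Submodule F2 B) := Fintype.ofFinite _

lemma sum_Sj (S Y : Submodule F2 B) (hSY : S ≤ Y) (h : ℕ → ℤ) (hy : finrank F2 Y < 8)
    (s : Finset (Submodule F2 B)) (hs : ∀ Z, Z ∈ s ↔ (S ≤ Z ∧ Z ≤ Y)) :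
    ∑ Z ∈ s, h (finrank F2 Z) = Sj (finrank F2 Y) (finrank F2 S) h := by
  rw [Cnt.sum_between S Y hSY h s hs]
  unfold Sj
  rw [← sum_range_eq]
  refine Finset.sum_congr rfl fun k hk => ?_
  rw [nsmul_eq_mul, gb_eq _ (by omega) _ (Finset.mem_range.1 hk)]

open Classical in
lemma sum_ite_mem (S Y : Submodule F2 B) (P : Submodule F2 B → Prop) [DecidablePred P]
    (hP : ∀ Z, P Z ↔ S ≤ Z) (h : ℕ → ℤ) (hy : finrank F2 Y < 8) (j : ℕ) (hj : finrank F2 S = j) :
    ∑ Z ∈ Finset.univ.filter (fun Z : Submodule F2 B => Z ≤ Y),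
      (if P Z then h (finrank F2 Z) else 0) =
    if P Y then Sj (finrank F2 Y) j h else 0 := by
  rw [← Finset.sum_filter, Finset.filter_filter]
  split_ifs with h1
  · rw [← hj]
    apply sum_Sj S Y ((hP Y).1 h1) h hy
    intro Z
    rw [Finset.mem_filter, hP]
    simp [and_comm]
  · rw [Finset.filter_false_of_mem, Finset.sum_empty]
    intro Z _ h2
    exact h1 ((hP Y).2 (((hP Z).1 h2.2).trans h2.1))

lemma span_one_le {x : B} {Z : Submodule F2 B} : span F2 {x} ≤ Z ↔ x ∈ Z := by
  rw [span_le, Set.singleton_subset_iff]; rfl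

lemma span_two_le {x y : B} {Z : Submodule F2 B} : span F2 {x, y} ≤ Z ↔ (x ∈ Z ∧ y ∈ Z) := by
  rw [span_le, Set.insert_subset_iff, Set.singleton_subset_iff]; rfl

lemma finrank_two (ha : a ≠ 0) (hb : b ≠ 0) (hab : a ≠ b) : finrank F2 (span F2 {a, b}) = 2 := by
  have h1 : span F2 {a, b} = span F2 {a} ⊔ span F2 {b} := span_insert a {b}
  have h2 : b ∉ span F2 {a} := by
    intro h
    obtain ⟨c, hc⟩ := Submodule.mem_span_singleton.1 h
    rcases two_cases c with rfl | rfl
    · rw [zero_smul] at hc; exact hb hc.symm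
    · rw [one_smul] at hc; exact hab hc
  rw [h1, finrank_sup_span_singleton h2, finrank_span_singleton ha]

open Classical in
/-- the sum over the valid pairs below a given valid pair, coefficient by coefficient -/
theorem sum_total (ha : a ≠ 0) (hb : b ≠ 0) (hab : a ≠ b) (Y : Submodule F2 B) (t : Fl)
    (hy : finrank F2 Y < 8) (i : ℕ) :
    ∑ Z ∈ Finset.univ.filter (fun Z : Submodule F2 B => Z ≤ Y),
      g t (decide (a ∈ Z)) (decide (b ∈ Z)) (decide (a + b ∈ Z)) (finrank F2 Z) i =
    total t (decide (a ∈ Y)) (decide (b ∈ Y)) (decide (a + b ∈ Y)) (finrank F2 Y) i := by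
  have hpt : ∀ Z : Submodule F2 B,
      g t (decide (a ∈ Z)) (decide (b ∈ Z)) (decide (a + b ∈ Z)) (finrank F2 Z) i =
      (if (0 : B) ∈ Z then (fun k => g t false false false k i) (finrank F2 Z) else 0) +
      (if a ∈ Z then (fun k => g t true false false k i - g t false false false k i)
        (finrank F2 Z) else 0) +
      (if b ∈ Z then (fun k => g t false true false k i - g t false false false k i)
        (finrank F2 Z) else 0) +
      (if a + b ∈ Z then (fun k => g t false false true k i - g t false false false k i)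
        (finrank F2 Z) else 0) +
      (if a ∈ Z ∧ b ∈ Z then (fun k => g t true true true k i - g t true false false k i -
    g t false true false k i - g t false false true k i + 2 * g t false false false k i)
        (finrank F2 Z) else 0) := by
    intro Z
    have hc : a ∈ Z → b ∈ Z → a + b ∈ Z := fun h1 h2 => Z.add_mem h1 h2
    have hc2 : a ∈ Z → a + b ∈ Z → b ∈ Z := fun h1 h2 => by
      have := Z.add_mem h1 h2
      rwa [← add_assoc, self_add, zero_add] at this
    have hc3 : b ∈ Z → a + b ∈ Z → a ∈ Z := fun h1 h2 => by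
      have := Z.add_mem h2 h1
      rwa [add_self_cancel] at this
    rw [if_pos (zero_mem Z)]
    by_cases h1 : a ∈ Z <;> by_cases h2 : b ∈ Z <;> by_cases h3 : a + b ∈ Z <;>
      simp only [h1, h2, h3, decide_true, decide_false, if_true, if_false, and_true, true_and,
        and_false, false_and] <;> first | (exfalso; tauto) | ring
  rw [Finset.sum_congr rfl (fun Z _ => hpt Z), Finset.sum_add_distrib, Finset.sum_add_distrib,
    Finset.sum_add_distrib, Finset.sum_add_distrib]
  have hab' : a + b ≠ 0 := by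
    intro h
    apply hab
    have := congrArg (fun x => x + b) h
    simp only [add_self_cancel, zero_add] at this
    exact this
  have e0 := sum_ite_mem ⊥ Y (fun Z => (0 : B) ∈ Z) (fun Z => by simp)
    (fun k => g t false false false k i) hy 0 (finrank_bot _ _)
  have e1 := sum_ite_mem (span F2 {a}) Y (fun Z => a ∈ Z) (fun Z => span_one_le.symm)
    (fun k => g t true false false k i - g t false false false k i) hy 1
      (finrank_span_singleton ha)
  have e2 := sum_ite_mem (span F2 {b}) Y (fun Z => b ∈ Z) (fun Z => span_one_le.symm)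
    (fun k => g t false true false k i - g t false false false k i) hy 1
      (finrank_span_singleton hb)
  have e3 := sum_ite_mem (span F2 {a + b}) Y (fun Z => a + b ∈ Z) (fun Z => span_one_le.symm)
    (fun k => g t false false true k i - g t false false false k i) hy 1
      (finrank_span_singleton hab')
  have e4 := sum_ite_mem (span F2 {a, b}) Y (fun Z => a ∈ Z ∧ b ∈ Z) (fun Z => span_two_le.symm)
    (fun k => g t true true true k i - g t true false false k i -
    g t false true false k i - g t false false true k i + 2 * g t false false false k i) hy 2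
      (finrank_two ha hb hab)
  beta_reduce at e0 e1 e2 e3 e4 ⊢
  rw [e0, e1, e2, e3, e4]
  unfold total
  simp only [zero_mem, if_true, decide_eq_true_eq, Bool.and_eq_true]

end general

end Pool.Agent.H594R3.Ex
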