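import Pool.Agent.H594R3.Ex2

/-!
The certificate for the flats of the example, final assembly.
-/

set_option autoImplicit false

namespace Pool.Agent.H594R3.Ex

open Module Submodule Pool.Agent.H594R3.TM Pool.Agent.H594R3.KL Polynomial

variable {B : Type} [AddCommGroup B] [Module F2 B] [Finite B] {a b : B} {n : ℕ}
  {v : Fin n → B × F2 × F2}

/-- finset version of `G` -/
noncomputable def Gf (a : B) (v : Fin n → B × F2 × F2) (Y : Submodule F2 B) (t : Fl) :
    Finset (Fin n) :=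
  (Set.toFinite (G a v Y t)).toFinset

omit [Finite B] in
lemma coe_Gf (Y : Submodule F2 B) (t : Fl) : (Gf a v Y t : Set (Fin n)) = G a v Y t :=
  Set.Finite.coe_toFinset _

lemma Gf_subset (ha : a ≠ 0) (hr : Set.range v = E0 a) (Z Y : Submodule F2 B) (s t : Fl) :
    Gf a v Z s ⊆ Gf a v Y t ↔ (Z ≤ Y ∧ sle s t = true) := by
  rw [← Finset.coe_subset, coe_Gf, coe_Gf, G_subset_iff ha hr]

lemma Gf_inj (ha : a ≠ 0) (hr : Set.range v = E0 a) {Z Y : Submodule F2 B} {s t : Fl}
    (h : Gf a v Z s = Gf a v Y t) : Z = Y ∧ s = t := by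
  have h1 := (Gf_subset ha hr Z Y s t).1 h.le
  have h2 := (Gf_subset ha hr Y Z t s).1 h.ge
  exact ⟨le_antisymm h1.1 h2.1, sle_antisymm s t h1.2 h2.2⟩

lemma mem_flats_iff (ha : a ≠ 0) (hb : b ≠ 0) (hr : Set.range v = E0 a) {X : Finset (Fin n)} :
    X ∈ flats (mat v (L b) L_ne_bot) ↔ ∃ Y t, Valid a b Y t ∧ X = Gf a v Y t := by
  rw [mem_flats]
  constructor
  · intro h
    obtain ⟨Y, t, h1, h2⟩ := valid_of_flat ha hb hr h
    exact ⟨Y, t, h1, by rw [← Finset.coe_inj, coe_Gf, h2]⟩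
  · rintro ⟨Y, t, h1, rfl⟩
    rw [coe_Gf]
    exact flat_of_valid hr h1

lemma rank_Gf (hr : Set.range v = E0 a) {Y : Submodule F2 B} {t : Fl} (h : Valid a b Y t) :
    rank (mat v (L b) L_ne_bot) (Gf a v Y t) = finrank F2 Y + eps t := by
  unfold rank
  rw [coe_Gf, eRk_eq, r_G hr h]
  rfl

open Classical in
/-- the pair belonging to a flat -/
noncomputable def dat (a b : B) (v : Fin n → B × F2 × F2) (X : Finset (Fin n)) :
    Submodule F2 B × Fl :=
  if h : ∃ p : Submodule F2 B × Fl, Valid a b p.1 p.2 ∧ Gf a v p.1 p.2 = X then h.choose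
  else (⊥, (false, false, false))

lemma dat_Gf (ha : a ≠ 0) (hr : Set.range v = E0 a) {Y : Submodule F2 B} {t : Fl}
    (h : Valid a b Y t) : dat a b v (Gf a v Y t) = (Y, t) := by
  have h1 : ∃ p : Submodule F2 B × Fl, Valid a b p.1 p.2 ∧ Gf a v p.1 p.2 = Gf a v Y t :=
    ⟨(Y, t), h, rfl⟩
  unfold dat
  rw [dif_pos h1]
  have h2 := Gf_inj ha hr h1.choose_spec.2
  exact Prod.ext h2.1 h2.2

/-- the low degree polynomial of a flat -/
noncomputable def vv (a b : B) (v : Fin n → B × F2 × F2) (X : Finset (Fin n)) : ℤ[X] :=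
  ofL (Vv (dat a b v X).2 (finrank F2 (dat a b v X).1))

/-- the palindromic polynomial of a flat -/
noncomputable def ww (a b : B) (v : Fin n → B × F2 × F2) (X : Finset (Fin n)) : ℤ[X] :=
  ofL (W (dat a b v X).2 (finrank F2 (dat a b v X).1))

noncomputable local instance instFt' : Fintype (Submodule F2 B) := Fintype.ofFinite _

open Classical in
lemma sum_flats (ha : a ≠ 0) (hb : b ≠ 0) (hr : Set.range v = E0 a) (Y : Submodule F2 B) (t : Fl)
    (f : Finset (Fin n) → ℤ) :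
    ∑ X ∈ Iv (flats (mat v (L b) L_ne_bot)) ∅ (Gf a v Y t), f X =
    ∑ Z ∈ Finset.univ.filter (fun Z : Submodule F2 B => Z ≤ Y), ∑ s ∈ Finset.univ.filter
      (fun s : Fl => sle s t = true ∧ Valid a b Z s), f (Gf a v Z s) := by
  rw [Finset.sum_sigma']
  symm
  refine Finset.sum_bij (fun p _ => Gf a v p.1 p.2) ?_ ?_ ?_ ?_
  · rintro ⟨Z, s⟩ hp
    rw [Finset.mem_sigma, Finset.mem_filter, Finset.mem_filter] at hp
    obtain ⟨⟨-, h1⟩, -, h2, h3⟩ := hp
    rw [mem_Iv, mem_flats_iff ha hb hr, Gf_subset ha hr]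
    exact ⟨⟨Z, s, h3, rfl⟩, Finset.empty_subset _, h1, h2⟩
  · rintro ⟨Z, s⟩ hp ⟨Z', s'⟩ hp' h
    obtain ⟨h1, h2⟩ := Gf_inj ha hr h
    simp only at h1 h2
    subst h1 h2
    rfl
  · intro X hX
    rw [mem_Iv, mem_flats_iff ha hb hr] at hX
    obtain ⟨⟨Z, s, h1, rfl⟩, -, h2⟩ := hX
    rw [Gf_subset ha hr] at h2
    refine ⟨⟨Z, s⟩, ?_, rfl⟩
    rw [Finset.mem_sigma, Finset.mem_filter, Finset.mem_filter]
    exact ⟨⟨Finset.mem_univ _, h2.1⟩, Finset.mem_univ _, h2.2, h1⟩
  · rintro ⟨Z, s⟩ hp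
    rfl

open Classical in
lemma okp_of (ha : a ≠ 0) (hb : b ≠ 0) (hab : a ≠ b) (Y : Submodule F2 B) :
    okp (decide (a ∈ Y)) (decide (b ∈ Y)) (decide (a + b ∈ Y)) (finrank F2 Y) = true := by
  have hc : a ∈ Y → b ∈ Y → a + b ∈ Y := fun h1 h2 => Y.add_mem h1 h2
  have hc2 : a ∈ Y → a + b ∈ Y → b ∈ Y := fun h1 h2 => by
    have := Y.add_mem h1 h2
    rwa [← add_assoc, self_add, zero_add] at this
  have hc3 : b ∈ Y → a + b ∈ Y → a ∈ Y := fun h1 h2 => by
    have := Y.add_mem h2 h1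
    rwa [add_self_cancel] at this
  have hab' : a + b ≠ 0 := by
    intro h
    apply hab
    have := congrArg (fun x => x + b) h
    simp only [add_self_cancel, zero_add] at this
    exact this
  have k1 : ∀ x : B, x ≠ 0 → x ∈ Y → 1 ≤ finrank F2 Y := by
    intro x hx h
    have := Submodule.finrank_mono (span_one_le.2 h)
    rwa [finrank_span_singleton hx] at this
  have k2 : a ∈ Y → b ∈ Y → 2 ≤ finrank F2 Y := by
    intro h1 h2
    have := Submodule.finrank_mono (span_two_le.2 ⟨h1, h2⟩)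
    rwa [finrank_two ha hb hab] at this
  unfold okp
  by_cases h1 : a ∈ Y <;> by_cases h2 : b ∈ Y <;> by_cases h3 : a + b ∈ Y
  · simp [h1, h2, h3, k2 h1 h2]
  · exact absurd (hc h1 h2) h3
  · exact absurd (hc2 h1 h3) h2
  · simp [h1, h2, h3, k1 a ha h1]
  · exact absurd (hc3 h2 h3) h1
  · simp [h1, h2, h3, k1 b hb h2]
  · simp [h1, h2, h3, k1 (a + b) hab' h3]
  · simp [h1, h2, h3]

lemma okv_of (ha : a ≠ 0) (hb : b ≠ 0) (hab : a ≠ b) {Y : Submodule F2 B} {t : Fl}
    (h : Valid a b Y t) : okv t (finrank F2 Y) = true := by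
  have k1 : ∀ x : B, x ≠ 0 → x ∈ Y → 1 ≤ finrank F2 Y := by
    intro x hx h
    have := Submodule.finrank_mono (span_one_le.2 h)
    rwa [finrank_span_singleton hx] at this
  have k2 : a ∈ Y → b ∈ Y → 2 ≤ finrank F2 Y := by
    intro h1 h2
    have := Submodule.finrank_mono (span_two_le.2 ⟨h1, h2⟩)
    rwa [finrank_two ha hb hab] at this
  obtain ⟨hA1, hA2, hB1, hB2, hC⟩ := h
  obtain ⟨t1, t2, t3⟩ := t
  simp only at hA1 hA2 hB1 hB2 hC
  unfold okv
  cases t1 <;> cases t2 <;> cases t3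
  · simp
  · simp
  · simp
  · simp
  · simp
  · simpa using k1 b hb (by simpa using hB2)
  · simpa using k1 a ha (by simpa using hA2)
  · have h1 : a ∈ Y := by simpa using hA2
    have h2 : b ∈ Y := by simpa using hB2
    simp [k1 a ha h1, k2 h1 h2]

lemma valid_bot (ha : a ≠ 0) (hb : b ≠ 0) :
    Valid a b (⊥ : Submodule F2 B) (false, false, false) := by
  simp [Valid, ha, hb]

lemma valid_top : Valid a b (⊤ : Submodule F2 B) (true, true, true) := by
  simp [Valid]

omit [Finite B] in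
lemma Gf_bot (hr : Set.range v = E0 a) : Gf a v ⊥ (false, false, false) = ∅ := by
  rw [← Finset.coe_inj, coe_Gf, Finset.coe_empty, Set.eq_empty_iff_forall_notMem]
  intro i hi
  have hvE : v i ∈ E0 a := by rw [← hr]; exact ⟨i, rfl⟩
  rcases hi with ⟨h1, h2⟩ | ⟨-, h2⟩ | ⟨-, h2⟩ | ⟨-, h2⟩
  · rw [Submodule.mem_bot] at h2
    rcases mem_E0.1 hvE with ⟨x, hx0, hx⟩ | hx | hx | hx
    · rw [hx] at h2; exact hx0 h2
    · rw [hx] at h1; simp at h1
    · rw [hx] at h1; simp at h1
    · rw [hx] at h1; simp at h1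
  · simp at h2
  · simp at h2
  · simp at h2

omit [Finite B] in
lemma Gf_top (hr : Set.range v = E0 a) : Gf a v ⊤ (true, true, true) = Finset.univ := by
  rw [← Finset.coe_inj, coe_Gf, Finset.coe_univ, Set.eq_univ_iff_forall]
  intro i
  have hvE : v i ∈ E0 a := by rw [← hr]; exact ⟨i, rfl⟩
  rcases mem_E0.1 hvE with ⟨x, hx0, hx⟩ | hx | hx | hx
  · left
    rw [hx]
    exact ⟨rfl, trivial⟩
  · exact Or.inr (Or.inl ⟨hx, rfl⟩)
  · exact Or.inr (Or.inr (Or.inl ⟨hx, rfl⟩))
  · exact Or.inr (Or.inr (Or.inr ⟨hx, rfl⟩))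

theorem cert (ha : a ≠ 0) (hb : b ≠ 0) (hab : a ≠ b) (hr : Set.range v = E0 a)
    (hB : finrank F2 B < 8) :
    Cert (flats (mat v (L b) L_ne_bot)) (rank (mat v (L b) L_ne_bot)) ∅ (vv a b v) (ww a b v) := by
  classical
  have hlt : ∀ Y : Submodule F2 B, finrank F2 Y < 8 := fun Y =>
    lt_of_le_of_lt (Submodule.finrank_le Y) hB
  have heps : ∀ t : Fl, eps t ≤ 2 := by decide
  refine ⟨?_, ?_, ?_, ?_, ?_, ?_, ?_, ?_⟩
  · rw [mem_flats_iff ha hb hr]
    exact ⟨⊥, (false, false, false), valid_bot ha hb, (Gf_bot hr).symm⟩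
  · intro F _
    exact Finset.empty_subset _
  · unfold rank
    rw [Finset.coe_empty, Matroid.eRk_empty]
    rfl
  · rw [← Gf_bot hr, vv, dat_Gf ha hr (valid_bot ha hb), finrank_bot]
    ext i
    rw [coeff_ofL, coeff_one]
    simp only [Vv, vl0, Bool.false_eq_true, if_false]
    rcases i with _ | i
    · rfl
    · simp
  · intro F hF hne
    rw [mem_flats_iff ha hb hr] at hF
    obtain ⟨Y, t, h1, rfl⟩ := hF
    rw [rank_Gf hr h1, vv, dat_Gf ha hr h1]
    have h2 := natDegree_ofL (Vv t (finrank F2 Y))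
    have h3 := vlen t (finrank F2 Y) (hlt Y) (okv_of ha hb hab h1) (by
      rintro rfl h4
      apply hne
      rw [Submodule.finrank_eq_zero] at h4
      rw [h4, Gf_bot hr])
    simp only
    omega
  · intro F hF
    rw [mem_flats_iff ha hb hr] at hF
    obtain ⟨Y, t, h1, rfl⟩ := hF
    rw [rank_Gf hr h1, ww, dat_Gf ha hr h1]
    have h2 := natDegree_ofL (W t (finrank F2 Y))
    have h3 := wlen t (finrank F2 Y) (hlt Y)
    simp only
    omega
  · intro F hF
    rw [mem_flats_iff ha hb hr] at hF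
    obtain ⟨Y, t, h1, rfl⟩ := hF
    rw [rank_Gf hr h1, ww, dat_Gf ha hr h1]
    simp only
    ext i
    rw [coeff_reflect, coeff_ofL, coeff_ofL, revAt_eq_rv]
    by_cases hi : i < 10
    · exact wpal t _ (hlt Y) i hi
    · have h2 := heps t
      have h3 := hlt Y
      rw [rv, if_neg (by omega)]
  · intro F hF
    rw [mem_flats_iff ha hb hr] at hF
    obtain ⟨Y, t, h1, rfl⟩ := hF
    rw [rank_Gf hr h1, vv, dat_Gf ha hr h1]
    simp only
    ext i
    rw [coeff_reflect, coeff_ofL, revAt_eq_rv, finsetSum_coeff, sum_flats ha hb hr]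
    have h2 : ∀ Z : Submodule F2 B, ∑ s ∈ Finset.univ.filter
        (fun s : Fl => sle s t = true ∧ Valid a b Z s), (ww a b v (Gf a v Z s)).coeff i =
        g t (decide (a ∈ Z)) (decide (b ∈ Z)) (decide (a + b ∈ Z)) (finrank F2 Z) i := by
      intro Z
      rw [← sum_term, Finset.sum_filter]
      refine Finset.sum_congr rfl fun s _ => ?_
      unfold term
      by_cases h3 : sle s t = true ∧ Valid a b Z s
      · have h4 := (valid_iff_vb Z s).1 h3.2
        rw [if_pos h3, if_pos (by rw [h3.1, h4]; rfl), ww, dat_Gf ha hr h3.2, coeff_ofL]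
      · rw [if_neg h3, if_neg]
        intro h4
        rw [Bool.and_eq_true, ← valid_iff_vb] at h4
        exact h3 h4
    rw [Finset.sum_congr rfl (fun Z _ => h2 Z), sum_total ha hb hab Y t (hlt Y) i]
    by_cases hi : i < 10
    · have h3 := master t (decide (a ∈ Y)) (decide (b ∈ Y)) (decide (a + b ∈ Y)) (hlt Y) hi
      unfold chk at h3
      rw [okp_of ha hb hab Y, (valid_iff_vb Y t).1 h1] at h3
      simpa using h3
    · have h3 : ∀ (s : Fl) (k : ℕ), k < 8 → (W s k).getD i 0 = 0 := by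
        intro s k hk
        have h4 := wlen s k hk
        have h5 := heps s
        rw [List.getD_eq_default _ _ (by omega)]
      rw [← sum_total ha hb hab Y t (hlt Y) i]
      have h4 := heps t
      have h5 := hlt Y
      rw [rv, if_neg (by omega), List.getD_eq_default _ _ (by
        have := vlen' t _ (hlt Y); omega)]
      apply Finset.sum_eq_zero
      intro Z _
      rw [← sum_term]
      apply Finset.sum_eq_zero
      intro s _
      unfold term
      split_ifs
      · exact h3 s _ (hlt Z)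
      · rfl

end Pool.Agent.H594R3.Ex
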