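import Mathlib

/-!
Kazhdan-Lusztig polynomials of a finite family of sets with a rank function: existence, and a
criterion which identifies the first row of the signed inverse.
-/

set_option autoImplicit false

namespace Pool.Agent.H594R3.KL

open Polynomial Finset

/-- the part of degree less than `r / 2` -/
noncomputable def low (r : ℕ) (R : ℤ[X]) : ℤ[X] := ∑ i ∈ range ((r + 1) / 2), C (R.coeff i) * X ^ i

lemma coeff_low (r : ℕ) (R : ℤ[X]) (i : ℕ) :
    (low r R).coeff i = if i < (r + 1) / 2 then R.coeff i else 0 := by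
  unfold low
  rw [finsetSum_coeff]
  simp only [coeff_C_mul, coeff_X_pow]
  rw [Finset.sum_congr rfl (fun j _ => show R.coeff j * (if i = j then (1 : ℤ) else 0) =
    if i = j then R.coeff i else 0 by split_ifs with h <;> simp [h])]
  rw [Finset.sum_ite_eq]
  simp

lemma natDegree_low {r : ℕ} (hr : 0 < r) (R : ℤ[X]) : 2 * (low r R).natDegree < r := by
  have h : (low r R).natDegree ≤ (r + 1) / 2 - 1 := by
    rw [natDegree_le_iff_coeff_eq_zero]
    intro N hN
    rw [coeff_low, if_neg (by omega)]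
  omega

lemma low_spec {r : ℕ} {R : ℤ[X]} (h1 : reflect r R = -R) (h2 : R.natDegree ≤ r) :
    reflect r (-low r R) - (-low r R) = R := by
  ext i
  rw [coeff_sub, coeff_reflect, coeff_neg, coeff_neg, coeff_low, coeff_low]
  by_cases hi : i ≤ r
  · have h3 : R.coeff (r - i) = - R.coeff i := by
      have := congrArg (fun p => coeff p i) h1
      simp only [coeff_reflect, coeff_neg] at this
      rwa [revAt_le hi] at this
    rw [revAt_le hi]
    by_cases ha : i < (r + 1) / 2
    · rw [if_neg (by omega), if_pos ha]; ring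
    · rw [if_neg ha]
      by_cases hb : r - i < (r + 1) / 2
      · rw [if_pos hb, h3]; ring
      · rw [if_neg hb]
        have h4 : r - i = i := by omega
        rw [h4] at h3
        omega
  · push Not at hi
    rw [revAt_eq_self_of_lt hi, if_neg (by omega)]
    rw [coeff_eq_zero_of_natDegree_lt (lt_of_le_of_lt h2 hi)]
    simp

lemma reflect_X_pow_mul {a b : ℕ} {p : ℤ[X]} (h : p.natDegree ≤ b) :
    reflect (a + b) (X ^ a * p) = reflect b p := by
  rw [reflect_mul _ _ (natDegree_X_pow_le a) h, reflect_monomial, revAt_le le_rfl, Nat.sub_self,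
    pow_zero, one_mul]

lemma reflect_reflect' {a b : ℕ} {p : ℤ[X]} (h : p.natDegree ≤ b) :
    reflect (a + b) (reflect b p) = X ^ a * p := by
  rw [← reflect_X_pow_mul (a := a) h, reflect_reflect]

lemma reflect_sum {ι : Type*} (s : Finset ι) (f : ι → ℤ[X]) (r : ℕ) :
    reflect r (∑ i ∈ s, f i) = ∑ i ∈ s, reflect r (f i) := by
  classical
  induction s using Finset.induction_on with
  | empty => simp
  | insert a s ha ih => rw [sum_insert ha, sum_insert ha, reflect_add, ih]

lemma reflect_sub' (f g : ℤ[X]) (r : ℕ) : reflect r (f - g) = reflect r f - reflect r g := by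
  ext i; simp [coeff_reflect]

lemma natDegree_reflect {b : ℕ} {p : ℤ[X]} (h : p.natDegree ≤ b) : (reflect b p).natDegree ≤ b := by
  have := natDegree_reflect_le (N := b) (p := p)
  omega

lemma eq_zero_of_reflect {r : ℕ} {p : ℤ[X]} (h1 : reflect r p = p) (h2 : 2 * p.natDegree < r) :
    p = 0 := by
  ext i
  rw [coeff_zero]
  by_cases hi : i ≤ p.natDegree
  · rw [← h1, coeff_reflect, revAt_le (by omega)]
    exact coeff_eq_zero_of_natDegree_lt (by omega)
  · exact coeff_eq_zero_of_natDegree_lt (by omega)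

variable {α : Type*} [DecidableEq α]

/-- the interval of members of `S` between `F` and `G` -/
def Iv (S : Finset (Finset α)) (F G : Finset α) : Finset (Finset α) :=
  S.filter (fun H => F ⊆ H ∧ H ⊆ G)

def Iv' (S : Finset (Finset α)) (F G : Finset α) : Finset (Finset α) :=
  S.filter (fun H => F ⊂ H ∧ H ⊆ G)

lemma mem_Iv {S : Finset (Finset α)} {F G H : Finset α} : H ∈ Iv S F G ↔ H ∈ S ∧ F ⊆ H ∧ H ⊆ G := by
  simp [Iv]

lemma mem_Iv' {S : Finset (Finset α)} {F G H : Finset α} :
    H ∈ Iv' S F G ↔ H ∈ S ∧ F ⊂ H ∧ H ⊆ G := by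
  simp [Iv']

lemma Iv_eq {S : Finset (Finset α)} {F G : Finset α} (hF : F ∈ S) (hFG : F ⊆ G) :
    Iv S F G = insert F (Iv' S F G) := by
  ext H
  rw [mem_insert, mem_Iv, mem_Iv']
  constructor
  · rintro ⟨h1, h2, h3⟩
    by_cases h : H = F
    · left; exact h
    · right; exact ⟨h1, _root_.ssubset_iff_subset_ne.2 ⟨h2, fun h' => h h'.symm⟩, h3⟩
  · rintro (rfl | ⟨h1, h2, h3⟩)
    · exact ⟨hF, subset_rfl, hFG⟩
    · exact ⟨h1, h2.1, h3⟩

lemma notMem_Iv' {S : Finset (Finset α)} {F G : Finset α} : F ∉ Iv' S F G := by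
  rw [mem_Iv']
  rintro ⟨-, h, -⟩
  exact (_root_.ssubset_irrefl F) h

lemma card_sdiff_lt {F G H : Finset α} (h1 : F ⊂ H) (h2 : H ⊆ G) : (G \ H).card < (G \ F).card := by
  apply Finset.card_lt_card
  rw [Finset.ssubset_iff_of_subset (Finset.sdiff_subset_sdiff subset_rfl h1.1)]
  obtain ⟨x, hx1, hx2⟩ := Finset.exists_of_ssubset h1
  exact ⟨x, Finset.mem_sdiff.2 ⟨h2 hx1, hx2⟩, fun h => (Finset.mem_sdiff.1 h).2 hx1⟩

/-- Kazhdan-Lusztig polynomials -/
noncomputable def P (S : Finset (Finset α)) (rk : Finset α → ℕ) (F G : Finset α) : ℤ[X] :=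
  if F = G then 1 else
    - low (rk G - rk F) (∑ H ∈ (Iv' S F G).attach,
      (X ^ (rk H.1 - rk F) * P S rk H.1 G - reflect (rk G - rk H.1) (P S rk H.1 G)))
termination_by (G \ F).card
decreasing_by
  all_goals
    have h := mem_Iv'.1 H.2
    exact card_sdiff_lt h.2.1 h.2.2

lemma P_self (S : Finset (Finset α)) (rk : Finset α → ℕ) (F : Finset α) : P S rk F F = 1 := by
  rw [P]; simp

lemma P_ne (S : Finset (Finset α)) (rk : Finset α → ℕ) {F G : Finset α} (h : F ≠ G) :
    P S rk F G = - low (rk G - rk F) (∑ H ∈ Iv' S F G,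
      (X ^ (rk H - rk F) * P S rk H G - reflect (rk G - rk H) (P S rk H G))) := by
  rw [P, if_neg h]
  congr 2
  exact Finset.sum_attach (Iv' S F G)
    (fun H => X ^ (rk H - rk F) * P S rk H G - reflect (rk G - rk H) (P S rk H G))

/-- signed inverse -/
noncomputable def Q (S : Finset (Finset α)) (rk : Finset α → ℕ) (F G : Finset α) : ℤ[X] :=
  if F = G then 1 else
    - ∑ H ∈ (Iv' S F G).attach, (-1) ^ (rk H.1 - rk F) * P S rk F H.1 * Q S rk H.1 G
termination_by (G \ F).card
decreasing_by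
  all_goals
    have h := mem_Iv'.1 H.2
    exact card_sdiff_lt h.2.1 h.2.2

lemma Q_self (S : Finset (Finset α)) (rk : Finset α → ℕ) (F : Finset α) : Q S rk F F = 1 := by
  rw [Q]; simp

lemma Q_ne (S : Finset (Finset α)) (rk : Finset α → ℕ) {F G : Finset α} (h : F ≠ G) :
    Q S rk F G = - ∑ H ∈ Iv' S F G, (-1) ^ (rk H - rk F) * P S rk F H * Q S rk H G := by
  rw [Q, if_neg h]
  congr 1
  exact Finset.sum_attach (Iv' S F G)
    (fun H => (-1) ^ (rk H - rk F) * P S rk F H * Q S rk H G)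

/-- the rank function is strictly monotone on the family -/
def Graded (S : Finset (Finset α)) (rk : Finset α → ℕ) : Prop :=
  ∀ F ∈ S, ∀ G ∈ S, F ⊂ G → rk F < rk G

variable {S : Finset (Finset α)} {rk : Finset α → ℕ}

lemma Graded.le (h : Graded S rk) {F G : Finset α} (hF : F ∈ S) (hG : G ∈ S) (hFG : F ⊆ G) :
    rk F ≤ rk G := by
  rcases eq_or_ssubset_of_subset hFG with rfl | h'
  · exact le_rfl
  · exact (h F hF G hG h').le

lemma natDegree_P (h : Graded S rk) {F G : Finset α} (hF : F ∈ S) (hG : G ∈ S) (hFG : F ⊂ G) :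
    2 * (P S rk F G).natDegree < rk G - rk F := by
  rw [P_ne S rk hFG.ne, natDegree_neg]
  apply natDegree_low
  have := h F hF G hG hFG
  omega

lemma natDegree_P_le (h : Graded S rk) {F G : Finset α} (hF : F ∈ S) (hG : G ∈ S) (hFG : F ⊆ G) :
    (P S rk F G).natDegree ≤ rk G - rk F := by
  rcases eq_or_ssubset_of_subset hFG with rfl | h'
  · rw [P_self]; simp
  · have := natDegree_P h hF hG h'
    omega

/-- The palindromicity of the `Z`-polynomial. -/
theorem Z_identity (h : Graded S rk) {F G : Finset α} (hF : F ∈ S) (hG : G ∈ S) (hFG : F ⊆ G) :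
    ∑ H ∈ Iv S F G, reflect (rk G - rk H) (P S rk H G) =
      ∑ H ∈ Iv S F G, X ^ (rk H - rk F) * P S rk H G := by
  rw [Iv_eq hF hFG, sum_insert notMem_Iv', sum_insert notMem_Iv', Nat.sub_self, pow_zero, one_mul]
  rcases eq_or_ssubset_of_subset hFG with rfl | hs
  · have : Iv' S F F = ∅ := by
      ext H
      rw [mem_Iv']
      simp only [Finset.notMem_empty, iff_false]
      rintro ⟨-, h1, h2⟩
      exact (_root_.ssubset_irrefl F) (h1.trans_subset h2)
    rw [this, P_self]
    simp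
  · set R := ∑ H ∈ Iv' S F G, (X ^ (rk H - rk F) * P S rk H G -
      reflect (rk G - rk H) (P S rk H G)) with hR
    have hdeg : ∀ H ∈ Iv' S F G, (P S rk H G).natDegree ≤ rk G - rk H ∧
        rk G - rk F = (rk H - rk F) + (rk G - rk H) := by
      intro H hH
      obtain ⟨h1, h2, h3⟩ := mem_Iv'.1 hH
      refine ⟨natDegree_P_le h h1 hG h3, ?_⟩
      have h4 := h.le hF h1 h2.1
      have h5 := h.le h1 hG h3
      omega
    have hR1 : reflect (rk G - rk F) R = -R := by
      rw [hR, reflect_sum, ← Finset.sum_neg_distrib]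
      refine Finset.sum_congr rfl fun H hH => ?_
      obtain ⟨h1, h2⟩ := hdeg H hH
      rw [reflect_sub', h2, reflect_X_pow_mul h1, reflect_reflect' h1]
      ring
    have hR2 : R.natDegree ≤ rk G - rk F := by
      rw [hR]
      apply natDegree_sum_le_of_forall_le
      intro H hH
      obtain ⟨h1, h2⟩ := hdeg H hH
      refine (natDegree_sub_le _ _).trans (max_le ?_ ?_)
      · refine (natDegree_mul_le).trans ?_
        rw [natDegree_X_pow]
        omega
      · exact (natDegree_reflect h1).trans (by omega)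
    have hP : P S rk F G = - low (rk G - rk F) R := P_ne S rk hs.ne
    have key := low_spec hR1 hR2
    rw [← hP] at key
    have hR3 : R = ∑ H ∈ Iv' S F G, X ^ (rk H - rk F) * P S rk H G -
        ∑ H ∈ Iv' S F G, reflect (rk G - rk H) (P S rk H G) := by
      rw [hR, Finset.sum_sub_distrib]
    rw [hR3] at key
    linear_combination key

theorem Q_identity (h : Graded S rk) {F G : Finset α} (hF : F ∈ S) (hFG : F ⊂ G) :
    ∑ H ∈ Iv S F G, (-1) ^ (rk H - rk F) * P S rk F H * Q S rk H G = 0 := by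
  rw [Iv_eq hF hFG.1, sum_insert notMem_Iv', Nat.sub_self, pow_zero, one_mul, P_self, one_mul,
    Q_ne S rk hFG.ne]
  ring

/-- The criterion: data `v`, `w` with palindromic `w` summing up to the reflections of `v`. -/
structure Cert (S : Finset (Finset α)) (rk : Finset α → ℕ) (b : Finset α)
    (v w : Finset α → ℤ[X]) : Prop where
  bot_mem : b ∈ S
  bot_le : ∀ F ∈ S, b ⊆ F
  rk_bot : rk b = 0
  v_bot : v b = 1
  v_deg : ∀ F ∈ S, F ≠ b → 2 * (v F).natDegree < rk F
  w_deg : ∀ F ∈ S, (w F).natDegree ≤ rk F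
  w_pal : ∀ F ∈ S, reflect (rk F) (w F) = w F
  sum_w : ∀ F ∈ S, ∑ X ∈ Iv S b F, w X = reflect (rk F) (v F)

lemma Cert.v_deg_le {b : Finset α} {v w : Finset α → ℤ[X]} (c : Cert S rk b v w) {F : Finset α}
    (hF : F ∈ S) : (v F).natDegree ≤ rk F := by
  by_cases hFb : F = b
  · rw [hFb, c.v_bot]; simp
  · have := c.v_deg F hF hFb; omega

lemma sum_swap (S : Finset (Finset α)) (b G : Finset α) (hb : ∀ F ∈ S, b ⊆ F)
    (f : Finset α → Finset α → ℤ[X]) :
    ∑ H ∈ Iv S b G, ∑ X ∈ Iv S b H, f X H = ∑ X ∈ Iv S b G, ∑ H ∈ Iv S X G, f X H := by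
  refine Finset.sum_comm' ?_
  intro H X
  simp only [mem_Iv]
  constructor
  · rintro ⟨⟨h1, h2, h3⟩, h4, h5, h6⟩
    exact ⟨⟨h1, h6, h3⟩, h4, h5, h6.trans h3⟩
  · rintro ⟨⟨h1, h2, h3⟩, h4, h5, h6⟩
    exact ⟨⟨h1, hb H h1, h3⟩, h4, h5, h2⟩

theorem Cert.conv {b : Finset α} {v w : Finset α → ℤ[X]} (h : Graded S rk) (c : Cert S rk b v w)
    {G : Finset α} (hG : G ∈ S) (hGb : G ≠ b) : ∑ H ∈ Iv S b G, v H * P S rk H G = 0 := by
  have hv : ∀ H ∈ S, v H = ∑ Y ∈ Iv S b H, (X : ℤ[X]) ^ (rk H - rk Y) * w Y := by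
    intro H hH
    have h1 := congrArg (reflect (rk H)) (c.sum_w H hH)
    rw [reflect_reflect, reflect_sum] at h1
    rw [← h1]
    refine Finset.sum_congr rfl fun Y hY => ?_
    obtain ⟨h2, h3, h4⟩ := mem_Iv.1 hY
    have h5 := h.le h2 hH h4
    have h6 := reflect_X_pow_mul (a := rk H - rk Y) (c.w_deg Y h2)
    rw [show rk H - rk Y + rk Y = rk H by omega, c.w_pal Y h2] at h6
    have h7 := congrArg (reflect (rk H)) h6
    rw [reflect_reflect] at h7
    exact h7.symm
  apply eq_zero_of_reflect (r := rk G)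
  · rw [reflect_sum]
    have h1 : ∀ H ∈ Iv S b G, reflect (rk G) (v H * P S rk H G) =
        ∑ Y ∈ Iv S b H, w Y * reflect (rk G - rk H) (P S rk H G) := by
      intro H hH
      obtain ⟨h2, h3, h4⟩ := mem_Iv.1 hH
      have h5 := h.le h2 hG h4
      have h6 := reflect_mul (v H) (P S rk H G) (c.v_deg_le h2) (natDegree_P_le h h2 hG h4)
      rw [show rk H + (rk G - rk H) = rk G by omega] at h6
      rw [h6, ← c.sum_w H h2, Finset.sum_mul]
    rw [Finset.sum_congr rfl h1, sum_swap S b G c.bot_le]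
    have h2 : ∀ Y ∈ Iv S b G, ∑ H ∈ Iv S Y G, w Y * reflect (rk G - rk H) (P S rk H G) =
        ∑ H ∈ Iv S Y G, w Y * (X ^ (rk H - rk Y) * P S rk H G) := by
      intro Y hY
      obtain ⟨h3, h4, h5⟩ := mem_Iv.1 hY
      rw [← Finset.mul_sum, Z_identity h h3 hG h5, Finset.mul_sum]
    rw [Finset.sum_congr rfl h2, ← sum_swap S b G c.bot_le
      (fun Y H => w Y * (X ^ (rk H - rk Y) * P S rk H G))]
    refine Finset.sum_congr rfl fun H hH => ?_
    rw [hv H (mem_Iv.1 hH).1, Finset.sum_mul]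
    refine Finset.sum_congr rfl fun Y _ => ?_
    ring
  · have hpos : 0 < rk G := by
      have := h b c.bot_mem G hG (_root_.ssubset_iff_subset_ne.2 ⟨c.bot_le G hG, fun h' => hGb h'.symm⟩)
      omega
    have hle : (∑ H ∈ Iv S b G, v H * P S rk H G).natDegree ≤ (rk G - 1) / 2 := by
      apply natDegree_sum_le_of_forall_le
      intro H hH
      obtain ⟨h2, h3, h4⟩ := mem_Iv.1 hH
      have h5 := h.le h2 hG h4
      refine natDegree_mul_le.trans ?_
      rcases eq_or_ssubset_of_subset h4 with rfl | h6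
      · rw [P_self, natDegree_one]
        have := c.v_deg H h2 hGb
        omega
      · have h7 := natDegree_P h h2 hG h6
        by_cases h8 : H = b
        · rw [h8, c.v_bot, natDegree_one]
          rw [h8] at h7
          omega
        · have := c.v_deg H h2 h8
          omega
    omega

theorem Cert.Q_eq {b : Finset α} {v w : Finset α → ℤ[X]} (h : Graded S rk) (c : Cert S rk b v w)
    {G : Finset α} (hG : G ∈ S) : Q S rk b G = (-1) ^ rk G * v G := by
  have h1 : ∑ H ∈ Iv S b G, ∑ F ∈ Iv S b H, v F * P S rk F H * ((-1) ^ rk H * Q S rk H G) =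
      Q S rk b G := by
    rw [Finset.sum_eq_single_of_mem b (mem_Iv.2 ⟨c.bot_mem, subset_rfl, c.bot_le G hG⟩)]
    · have : Iv S b b = {b} := by
        ext H
        rw [mem_Iv, mem_singleton]
        constructor
        · rintro ⟨h1, h2, h3⟩
          exact subset_antisymm h3 h2
        · rintro rfl
          exact ⟨c.bot_mem, subset_rfl, subset_rfl⟩
      rw [this, Finset.sum_singleton, c.v_bot, P_self, c.rk_bot]
      ring
    · intro H hH hHb
      rw [← Finset.sum_mul, c.conv h (mem_Iv.1 hH).1 hHb, zero_mul]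
  rw [← h1, sum_swap S b G c.bot_le (fun F H => v F * P S rk F H * ((-1) ^ rk H * Q S rk H G))]
  rw [Finset.sum_eq_single_of_mem G (mem_Iv.2 ⟨hG, c.bot_le G hG, subset_rfl⟩)]
  · have : Iv S G G = {G} := by
      ext H
      rw [mem_Iv, mem_singleton]
      constructor
      · rintro ⟨h1, h2, h3⟩
        exact subset_antisymm h3 h2
      · rintro rfl
        exact ⟨hG, subset_rfl, subset_rfl⟩
    rw [this, Finset.sum_singleton, P_self, Q_self]
    ring
  · intro F hF hFG
    obtain ⟨h2, h3, h4⟩ := mem_Iv.1 hF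
    have h5 := Q_identity (rk := rk) h h2 (_root_.ssubset_iff_subset_ne.2 ⟨h4, hFG⟩)
    have h6 : ∑ H ∈ Iv S F G, v F * P S rk F H * ((-1) ^ rk H * Q S rk H G) =
        v F * (-1) ^ rk F * ∑ H ∈ Iv S F G, (-1) ^ (rk H - rk F) * P S rk F H * Q S rk H G := by
      rw [Finset.mul_sum]
      refine Finset.sum_congr rfl fun H hH => ?_
      obtain ⟨h7, h8, h9⟩ := mem_Iv.1 hH
      have h10 := h.le h2 h7 h8
      have h11 : ((-1 : ℤ[X])) ^ rk H = (-1) ^ rk F * (-1) ^ (rk H - rk F) := by
        rw [← pow_add]; congr 1; omega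
      rw [h11]
      ring
    rw [h6, h5, mul_zero]

end Pool.Agent.H594R3.KL
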