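import Pool.Agent.H594R3.KL1

/-!
The Kazhdan-Lusztig polynomials of the flats of a finite matroid: the family `P`, `Q` satisfies the
defining identities written with characteristic polynomials of intervals.
-/

set_option autoImplicit false

namespace Pool.Agent.H594R3.KL

open Polynomial Finset Classical

variable {n : ℕ} (M : Matroid (Fin n))

/-- the flats -/
noncomputable def flats : Finset (Finset (Fin n)) :=
  Finset.univ.filter (fun F : Finset (Fin n) => M.IsFlat (F : Set (Fin n)))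

/-- the rank -/
noncomputable def rank (F : Finset (Fin n)) : ℕ := (M.eRk (F : Set (Fin n))).toNat

variable {M}

lemma mem_flats {F : Finset (Fin n)} : F ∈ flats M ↔ M.IsFlat (F : Set (Fin n)) := by
  simp [flats]

lemma eRk_ne_top (X : Set (Fin n)) : M.eRk X ≠ ⊤ := by
  have h := M.eRk_le_encard X
  have h2 : X.encard ≠ ⊤ := Set.encard_ne_top_iff.2 (Set.toFinite X)
  exact fun h3 => h2 (top_le_iff.1 (h3 ▸ h))

lemma coe_rank (F : Finset (Fin n)) : ((rank M F : ℕ) : ℕ∞) = M.eRk (F : Set (Fin n)) :=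
  ENat.coe_toNat (eRk_ne_top _)

lemma graded : Graded (flats M) (rank M) := by
  intro F hF G hG hFG
  rw [mem_flats] at hF hG
  obtain ⟨x, hx1, hx2⟩ := Finset.exists_of_ssubset hFG
  have h1 : x ∈ M.E \ M.closure (F : Set (Fin n)) := by
    rw [hF.closure]
    exact ⟨hG.subset_ground hx1, hx2⟩
  have h2 := Matroid.eRk_insert_eq_add_one h1
  have h3 : insert x (F : Set (Fin n)) ⊆ (G : Set (Fin n)) := by
    rw [Set.insert_subset_iff]
    exact ⟨hx1, by exact_mod_cast hFG.1⟩
  have h4 := M.eRk_mono h3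
  rw [h2, ← coe_rank, ← coe_rank] at h4
  have h5 : rank M F + 1 ≤ rank M G := by exact_mod_cast h4
  omega

lemma exists_closure {G B : Finset (Fin n)} (hE : M.E = Set.univ) (hG : G ∈ flats M) (hB : B ⊆ G) :
    ∃ K ∈ flats M, K ⊆ G ∧ rank M K = rank M B ∧ Iv (flats M) B G = Iv (flats M) K G := by
  have hfin : (M.closure (B : Set (Fin n))).Finite := Set.toFinite _
  have hK : ((hfin.toFinset : Finset (Fin n)) : Set (Fin n)) = M.closure (B : Set (Fin n)) :=
    hfin.coe_toFinset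
  have hflat : M.IsFlat ((hfin.toFinset : Finset (Fin n)) : Set (Fin n)) := by
    rw [hK]; exact M.isFlat_closure _
  have hsub : ∀ H ∈ flats M, B ⊆ H → hfin.toFinset ⊆ H := by
    intro H hH hBH
    rw [← Finset.coe_subset, hK, ← (mem_flats.1 hH).closure]
    exact M.closure_subset_closure (by exact_mod_cast hBH)
  have hBK : B ⊆ hfin.toFinset := by
    rw [← Finset.coe_subset, hK]
    exact M.subset_closure _ (by rw [hE]; exact Set.subset_univ _)
  refine ⟨hfin.toFinset, mem_flats.2 hflat, hsub G hG hB, ?_, ?_⟩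
  · unfold rank
    rw [hK, M.eRk_closure_eq]
  · ext H
    rw [mem_Iv, mem_Iv]
    constructor
    · rintro ⟨h1, h2, h3⟩
      exact ⟨h1, hsub H h1 h2, h3⟩
    · rintro ⟨h1, h2, h3⟩
      exact ⟨h1, hBK.trans h2, h3⟩

lemma chi_identity (hE : M.E = Set.univ) {F G : Finset (Fin n)} (hF : F ∈ flats M)
    (hG : G ∈ flats M) (hFG : F ⊆ G) :
    reflect (rank M G - rank M F) (P (flats M) (rank M) F G) =
      ∑ H ∈ Iv (flats M) F G, (∑ A ∈ (H \ F).powerset, (-1 : ℤ[X]) ^ A.card *
        X ^ (rank M H - rank M (A ∪ F))) * P (flats M) (rank M) H G := by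
  have hsw : ∀ f : Finset (Fin n) → Finset (Fin n) → ℤ[X],
      ∑ H ∈ Iv (flats M) F G, ∑ A ∈ (H \ F).powerset, f H A =
        ∑ A ∈ (G \ F).powerset, ∑ H ∈ Iv (flats M) (A ∪ F) G, f H A := by
    intro f
    refine Finset.sum_comm' ?_
    intro H A
    simp only [mem_Iv, Finset.mem_powerset, Finset.subset_sdiff, Finset.union_subset_iff]
    constructor
    · rintro ⟨⟨h1, h2, h3⟩, h4, h5⟩
      exact ⟨⟨h1, ⟨h4, h2⟩, h3⟩, h4.trans h3, h5⟩
    · rintro ⟨⟨h1, ⟨h4, h2⟩, h3⟩, h5, h6⟩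
      exact ⟨⟨h1, h2, h3⟩, h4, h6⟩
  have h1 : ∑ H ∈ Iv (flats M) F G, (∑ A ∈ (H \ F).powerset, (-1 : ℤ[X]) ^ A.card *
        X ^ (rank M H - rank M (A ∪ F))) * P (flats M) (rank M) H G =
      ∑ A ∈ (G \ F).powerset, ∑ H ∈ Iv (flats M) (A ∪ F) G,
        (-1 : ℤ[X]) ^ A.card * X ^ (rank M H - rank M (A ∪ F)) * P (flats M) (rank M) H G := by
    rw [← hsw (fun H A => (-1 : ℤ[X]) ^ A.card * X ^ (rank M H - rank M (A ∪ F)) *
      P (flats M) (rank M) H G)]
    refine Finset.sum_congr rfl fun H _ => ?_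
    rw [Finset.sum_mul]
  have h2 : ∀ A ∈ (G \ F).powerset, ∑ H ∈ Iv (flats M) (A ∪ F) G,
        (-1 : ℤ[X]) ^ A.card * X ^ (rank M H - rank M (A ∪ F)) * P (flats M) (rank M) H G =
      ∑ H ∈ Iv (flats M) (A ∪ F) G, (-1 : ℤ[X]) ^ A.card *
        reflect (rank M G - rank M H) (P (flats M) (rank M) H G) := by
    intro A hA
    rw [Finset.mem_powerset, Finset.subset_sdiff] at hA
    obtain ⟨K, hK1, hK2, hK3, hK4⟩ := exists_closure hE hG (Finset.union_subset hA.1 hFG)
    have h3 := Z_identity graded hK1 hG hK2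
    rw [hK3] at h3
    rw [hK4, ← Finset.mul_sum, h3, Finset.mul_sum]
    exact Finset.sum_congr rfl fun H _ => by ring
  rw [h1, Finset.sum_congr rfl h2, ← hsw (fun H A => (-1 : ℤ[X]) ^ A.card *
        reflect (rank M G - rank M H) (P (flats M) (rank M) H G))]
  rw [Finset.sum_eq_single_of_mem F (mem_Iv.2 ⟨hF, subset_rfl, hFG⟩)]
  · simp
  · intro H hH hHF
    obtain ⟨h3, h4, h5⟩ := mem_Iv.1 hH
    rw [← Finset.sum_mul]
    have h6 : (∑ A ∈ (H \ F).powerset, (-1 : ℤ[X]) ^ A.card) = 0 := by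
      have h7 : (H \ F).Nonempty := by
        rw [Finset.nonempty_iff_ne_empty]
        intro h8
        exact hHF (subset_antisymm (Finset.sdiff_eq_empty_iff_subset.1 h8) h4)
      have h8 := congrArg (fun z : ℤ => (z : ℤ[X])) (Finset.sum_powerset_neg_one_pow_card_of_nonempty h7)
      simpa using h8
    rw [h6, zero_mul]

/-- A certificate on the flats of a matroid computes the inverse Kazhdan-Lusztig polynomial. -/
theorem exists_PQ (hE : M.E = Set.univ) :
    ∃ P Q : Finset (Fin n) → Finset (Fin n) → Polynomial ℤ,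
    (∀ F : Finset (Fin n), M.IsFlat (F : Set (Fin n)) → P F F = 1 ∧ Q F F = 1) ∧
    (∀ F G : Finset (Fin n), M.IsFlat (F : Set (Fin n)) → M.IsFlat (G : Set (Fin n)) → F ⊂ G →
     2 * (P F G).natDegree < (M.eRk (G : Set (Fin n))).toNat - (M.eRk (F : Set (Fin n))).toNat ∧
     Polynomial.reflect ((M.eRk (G : Set (Fin n))).toNat - (M.eRk (F : Set (Fin n))).toNat) (P F G) =
       ∑ H ∈ Finset.univ.filter
           (fun H : Finset (Fin n) => M.IsFlat (H : Set (Fin n)) ∧ F ⊆ H ∧ H ⊆ G),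
         (∑ A ∈ (H \ F).powerset,
            (-1 : Polynomial ℤ) ^ A.card *
              Polynomial.X ^ ((M.eRk (H : Set (Fin n))).toNat
                - (M.eRk ((A ∪ F : Finset (Fin n)) : Set (Fin n))).toNat)) * P H G ∧
     ∑ H ∈ Finset.univ.filter
           (fun H : Finset (Fin n) => M.IsFlat (H : Set (Fin n)) ∧ F ⊆ H ∧ H ⊆ G),
         (-1 : Polynomial ℤ) ^ ((M.eRk (H : Set (Fin n))).toNat - (M.eRk (F : Set (Fin n))).toNat)
           * P F H * Q H G = 0) ∧
    ∀ (b : Finset (Fin n)) (v w : Finset (Fin n) → ℤ[X]), Cert (flats M) (rank M) b v w →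
      Q b Finset.univ = (-1) ^ rank M Finset.univ * v Finset.univ := by
  have hfil : ∀ F G : Finset (Fin n), Finset.univ.filter
      (fun H : Finset (Fin n) => M.IsFlat (H : Set (Fin n)) ∧ F ⊆ H ∧ H ⊆ G) = Iv (flats M) F G := by
    intro F G
    ext H
    rw [mem_Iv, mem_flats]
    simp
  refine ⟨P (flats M) (rank M), Q (flats M) (rank M), ?_, ?_, ?_⟩
  · intro F _
    exact ⟨P_self _ _ _, Q_self _ _ _⟩
  · intro F G hF hG hFG
    have hF' := mem_flats.2 hF
    have hG' := mem_flats.2 hG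
    refine ⟨natDegree_P graded hF' hG' hFG, ?_, ?_⟩
    · rw [hfil]
      exact chi_identity hE hF' hG' hFG.1
    · rw [hfil]
      exact Q_identity graded hF' hFG
  · intro b v w c
    refine c.Q_eq graded (mem_flats.2 ?_)
    rw [Finset.coe_univ, ← hE]
    exact M.ground_isFlat

end Pool.Agent.H594R3.KL
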