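import Mathlib

/-!
The truncation of a vector matroid along a subspace `L`: the independent sets are the linearly
independent sets whose span does not contain `L`.  Rank function and flats.
-/

set_option autoImplicit false

namespace Pool.Agent.H594R3.TM

open Module Submodule

variable {ι K V : Type*} [Finite ι] [Field K] [AddCommGroup V] [Module K V] [Module.Finite K V]

lemma finrank_span_eq {v : ι → V} {I : Set ι} (hI : LinearIndepOn K v I) :
    finrank K (span K (v '' I)) = I.ncard := by
  have h := toENat_rank_span_set hI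
  rw [← finrank_eq_rank, ← (Set.toFinite I).cast_ncard_eq, Cardinal.toENat_nat] at h
  exact_mod_cast h

lemma le_sup_of_exchange {W : Submodule K V} {x y : V} (h1 : x ∈ W ⊔ span K {y}) (h2 : x ∉ W) :
    y ∈ W ⊔ span K {x} := by
  have e : ∀ z : V, W ⊔ span K {z} = span K (insert z (W : Set V)) := by
    intro z
    rw [span_insert, span_eq, sup_comm]
  rw [e] at h1 ⊢
  exact mem_span_insert_exchange h1 (by rwa [span_eq])

lemma span_insert' (v : ι → V) (e : ι) (I : Set ι) :
    span K (v '' (insert e I)) = span K (v '' I) ⊔ span K {v e} := by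
  rw [Set.image_insert_eq, span_insert, sup_comm]

lemma aug (v : ι → V) (L : Submodule K V) {I J : Set ι}
    (hI : LinearIndepOn K v I ∧ ¬ L ≤ span K (v '' I))
    (hJ : LinearIndepOn K v J ∧ ¬ L ≤ span K (v '' J)) (h : I.ncard < J.ncard) :
    ∃ e ∈ J, e ∉ I ∧ (LinearIndepOn K v (insert e I) ∧ ¬ L ≤ span K (v '' (insert e I))) := by
  by_contra hcon
  push Not at hcon
  obtain ⟨l, hl, hlW⟩ := SetLike.not_le_iff_exists.1 hI.2
  have h1 : ∀ e ∈ J, v e ∉ span K (v '' I) → L ≤ span K (v '' I) ⊔ span K {v e} := by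
    intro e he hne
    have heI : e ∉ I := fun h' => hne (subset_span ⟨e, h', rfl⟩)
    have := hcon e he heI (hI.1.insert hne)
    rwa [span_insert'] at this
  have h2 : ∀ e ∈ J, v e ∈ span K (v '' I) ⊔ span K {l} := by
    intro e he
    by_cases hne : v e ∈ span K (v '' I)
    · exact mem_sup_left hne
    · exact le_sup_of_exchange (h1 e he hne hl) hlW
  have h3 : span K (v '' J) ≤ span K (v '' I) ⊔ span K {l} := by
    rw [span_le]
    rintro _ ⟨e, he, rfl⟩
    exact h2 e he
  have h4 : finrank K (span K (v '' I) ⊔ span K {l} : Submodule K V) = I.ncard + 1 := by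
    rw [finrank_sup_span_singleton hlW, finrank_span_eq hI.1]
  have h5 := finrank_span_eq hJ.1
  have h6 : span K (v '' J) = span K (v '' I) ⊔ span K {l} :=
    Submodule.eq_of_le_of_finrank_le h3 (by omega)
  have h7 : ∃ e ∈ J, v e ∉ span K (v '' I) := by
    by_contra hno
    push Not at hno
    have h8 : span K (v '' J) ≤ span K (v '' I) := by
      rw [span_le]
      rintro _ ⟨e, he, rfl⟩
      exact hno e he
    have h9 := Submodule.finrank_mono h8
    rw [h5, finrank_span_eq hI.1] at h9
    omega
  obtain ⟨e, he, hne⟩ := h7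
  apply hJ.2
  rw [h6]
  refine (h1 e he hne).trans (sup_le le_sup_left ?_)
  rw [span_le, Set.singleton_subset_iff]
  exact h2 e he

/-- The truncated vector matroid. -/
def mat (v : ι → V) (L : Submodule K V) (hL : L ≠ ⊥) : Matroid ι :=
  (IndepMatroid.ofFinite (E := Set.univ) Set.finite_univ
    (fun I => LinearIndepOn K v I ∧ ¬ L ≤ span K (v '' I))
    (by
      refine ⟨by simp, ?_⟩
      rw [Set.image_empty, span_empty]
      exact fun h => hL (le_bot_iff.1 h))
    (fun _ _ hJ hIJ => ⟨hJ.1.mono hIJ, fun h => hJ.2 (h.trans (span_mono (Set.image_mono hIJ)))⟩)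
    (fun _ _ hI hJ h => aug v L hI hJ h)
    (fun _ _ => Set.subset_univ _)).matroid

variable {v : ι → V} {L : Submodule K V} {hL : L ≠ ⊥}

lemma mat_E : (mat v L hL).E = Set.univ := rfl

lemma mat_indep {I : Set ι} : (mat v L hL).Indep I ↔
    (LinearIndepOn K v I ∧ ¬ L ≤ span K (v '' I)) := Iff.rfl

lemma exists_basis (v : ι → V) (X : Set ι) :
    ∃ I ⊆ X, LinearIndepOn K v I ∧ span K (v '' I) = span K (v '' X) := by
  obtain ⟨b, hb1, -, hb3, hb4⟩ := exists_linearIndepOn_extension
    (linearIndepOn_empty K v) (Set.empty_subset X)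
  refine ⟨b, hb1, hb4, le_antisymm (span_mono (Set.image_mono hb1)) ?_⟩
  rw [span_le]
  exact hb3

lemma exists_remove {I : Set ι} (hI : LinearIndepOn K v I) (hL : L ≠ ⊥)
    (h : L ≤ span K (v '' I)) : ∃ i ∈ I, ¬ L ≤ span K (v '' (I \ {i})) := by
  obtain ⟨l, hl, hl0⟩ := (Submodule.ne_bot_iff L).1 hL
  obtain ⟨c, hc, hcl⟩ := (Finsupp.mem_span_image_iff_linearCombination K).1 (h hl)
  have hc0 : c ≠ 0 := by
    rintro rfl
    exact hl0 (by rw [← hcl]; simp)
  obtain ⟨i, hi⟩ := Finsupp.ne_iff.1 hc0
  have hiI : i ∈ I := (Finsupp.mem_supported K c).1 hc (Finsupp.mem_support_iff.2 hi)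
  refine ⟨i, hiI, fun hcon => ?_⟩
  obtain ⟨d, hd, hdl⟩ := (Finsupp.mem_span_image_iff_linearCombination K).1 (hcon hl)
  have hd' : d ∈ Finsupp.supported K K I :=
    Finsupp.supported_mono Set.sdiff_subset hd
  have h1 := (linearIndepOn_iff.1 hI) (c - d) (Submodule.sub_mem _ hc hd') (by
    rw [map_sub, hcl, hdl, sub_self])
  have h2 : c = d := sub_eq_zero.1 h1
  apply hi
  rw [h2]
  by_contra hne
  have := (Finsupp.mem_supported K d).1 hd (Finsupp.mem_support_iff.2 hne)
  exact this.2 rfl

open Classical in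
/-- the rank as a natural number -/
noncomputable def r (v : ι → V) (L : Submodule K V) (X : Set ι) : ℕ :=
  finrank K (span K (v '' X)) - (if L ≤ span K (v '' X) then 1 else 0)

lemma eRk_eq (X : Set ι) : (mat v L hL).eRk X = (r v L X : ℕ) := by
  classical
  apply le_antisymm
  · rw [Matroid.eRk_le_iff]
    intro I hIX hI
    rw [mat_indep] at hI
    have h1 := finrank_span_eq hI.1
    have h2 : span K (v '' I) ≤ span K (v '' X) := span_mono (Set.image_mono hIX)
    have h3 := Submodule.finrank_mono h2
    have h4 : I.ncard ≤ r v L X := by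
      unfold r
      split_ifs with hLX
      · have h5 : span K (v '' I) < span K (v '' X) :=
          lt_of_le_of_ne h2 (fun h => hI.2 (h ▸ hLX))
        have h6 := Submodule.finrank_lt_finrank_of_lt h5
        omega
      · omega
    rw [← (Set.toFinite I).cast_ncard_eq]
    exact_mod_cast h4
  · rw [Matroid.le_eRk_iff]
    obtain ⟨I, hIX, hI, hspan⟩ := exists_basis (K := K) v X
    have h1 := finrank_span_eq hI
    by_cases hLX : L ≤ span K (v '' X)
    · obtain ⟨i, hi, hi2⟩ := exists_remove hI hL (hspan ▸ hLX)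
      refine ⟨I \ {i}, Set.sdiff_subset.trans hIX, ?_, ?_⟩
      · exact mat_indep.2 ⟨hI.mono Set.sdiff_subset, hi2⟩
      · rw [← (Set.toFinite (I \ {i})).cast_ncard_eq]
        unfold r
        rw [if_pos hLX, ← hspan, h1, Set.ncard_sdiff_singleton_of_mem hi]
    · refine ⟨I, hIX, mat_indep.2 ⟨hI, hspan ▸ hLX⟩, ?_⟩
      rw [← (Set.toFinite I).cast_ncard_eq]
      unfold r
      rw [if_neg hLX, ← hspan, h1, Nat.sub_zero]

lemma r_insert_of (hL : L ≠ ⊥) (X : Set ι) (e : ι) :
    r v L (insert e X) = r v L X + 1 ↔ (v e ∉ span K (v '' X) ∧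
      (L ≤ span K (v '' X) ⊔ span K {v e} → L ≤ span K (v '' X))) := by
  classical
  unfold r
  rw [span_insert']
  by_cases h1 : v e ∈ span K (v '' X)
  · have h2 : span K (v '' X) ⊔ span K {v e} = span K (v '' X) := by
      rw [sup_eq_left, span_le, Set.singleton_subset_iff]
      exact h1
    rw [h2]
    simp [h1]
  · rw [finrank_sup_span_singleton h1]
    by_cases h3 : L ≤ span K (v '' X)
    · have h4 : L ≤ span K (v '' X) ⊔ span K {v e} := h3.trans le_sup_left
      rw [if_pos h3, if_pos h4]
      have h5 : 0 < finrank K (span K (v '' X)) := by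
        have h6 : span K (v '' X) ≠ ⊥ := fun h => hL (le_bot_iff.1 (h ▸ h3))
        rw [Nat.pos_iff_ne_zero]
        intro h7
        exact h6 (Submodule.finrank_eq_zero.1 h7)
      simp only [h1, not_false_eq_true, h3, h4, true_and, imp_self, iff_true]
      omega
    · by_cases h4 : L ≤ span K (v '' X) ⊔ span K {v e}
      · rw [if_neg h3, if_pos h4]
        simp [h1, h3, h4]
      · rw [if_neg h3, if_neg h4]
        simp [h1, h3, h4]

lemma isFlat_iff (G : Set ι) : (mat v L hL).IsFlat G ↔ ∀ e, e ∉ G → (v e ∉ span K (v '' G) ∧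
      (L ≤ span K (v '' G) ⊔ span K {v e} → L ≤ span K (v '' G))) := by
  rw [Matroid.isFlat_iff_closure_eq]
  have key : ∀ e, e ∉ (mat v L hL).closure G ↔ r v L (insert e G) = r v L G + 1 := by
    intro e
    constructor
    · intro he
      have h1 := Matroid.eRk_insert_eq_add_one (M := mat v L hL) (X := G) (e := e)
        ⟨by rw [mat_E]; exact Set.mem_univ _, he⟩
      rw [eRk_eq, eRk_eq] at h1
      exact_mod_cast h1
    · intro h1 he
      have h2 := Matroid.closure_insert_eq_of_mem_closure he
      have h3 := (mat v L hL).eRk_closure_eq (insert e G)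
      rw [h2, Matroid.eRk_closure_eq, eRk_eq, eRk_eq] at h3
      have h4 : r v L G = r v L (insert e G) := by exact_mod_cast h3
      omega
  constructor
  · intro h e he
    rw [← r_insert_of hL, ← key, h]
    exact he
  · intro h
    apply subset_antisymm
    · intro e he
      by_contra hne
      have := h e hne
      rw [← r_insert_of hL, ← key] at this
      exact this he
    · exact (mat v L hL).subset_closure G (by rw [mat_E]; exact Set.subset_univ _)

end Pool.Agent.H594R3.TM
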